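import Pool.Agent.H891.RF.Basis

/-! Norms and algebraic independence. -/

set_option autoImplicit false
set_option linter.overlappingInstances false
set_option linter.unusedSectionVars false

open IntermediateField Pool.Agent.H891.RF

namespace Pool.Agent.H891.RH

section

variable {k K L : Type} [Field k] [Field K] [Field L] [Algebra k K] [Algebra k L] [Algebra K L]
  [IsScalarTower k K L] [CharZero k] [FiniteDimensional K L] [IsGalois K L]

/-- The conjugates are algebraic over the field generated by the norms. -/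
theorem alg_norm {R : Set L} (hR : ∀ x ∈ R, ∀ c : k, algebraMap k L c - x ∈ R) {x : L}
    (hx : x ∈ R) (σ : L ≃ₐ[K] L) :
    IsAlgebraic (IntermediateField.adjoin k ((fun x => algebraMap K L (Algebra.norm K x)) '' R))
      (σ x) := by
  classical
  by_contra hcon
  obtain ⟨D, hD, hD1⟩ := exists_der _ hcon
  let p : Polynomial L := ∏ τ : L ≃ₐ[K] L, (Polynomial.X - Polynomial.C (τ x))
  have hp0 : p ≠ 0 := Finset.prod_ne_zero_iff.2 fun τ _ => Polynomial.X_sub_C_ne_zero _
  have hpx : p.eval (σ x) = 0 := by
    rw [Polynomial.eval_prod]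
    exact Finset.prod_eq_zero (Finset.mem_univ σ) (by simp)
  have hpc : ∀ c : k, D (p.eval (algebraMap k L c)) = 0 := by
    intro c
    have h1 : p.eval (algebraMap k L c) =
        algebraMap K L (Algebra.norm K (algebraMap k L c - x)) := by
      rw [Algebra.norm_eq_prod_automorphisms, Polynomial.eval_prod]
      refine Finset.prod_congr rfl fun τ _ => ?_
      rw [Polynomial.eval_sub, Polynomial.eval_X, Polynomial.eval_C, map_sub]
      congr 1
      rw [IsScalarTower.algebraMap_apply k K L, τ.commutes]
    rw [h1]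
    exact hD _ (IntermediateField.subset_adjoin _ _ ⟨_, hR x hx c, rfl⟩)
  let q : Polynomial L := ∑ i ∈ Finset.range (p.natDegree + 1), Polynomial.monomial i (D (p.coeff i))
  have hq : ∀ c : k, q.eval (algebraMap k L c) = 0 := by
    intro c
    rw [← hpc c, Polynomial.eval_eq_sum_range (p := p), map_sum, Polynomial.eval_finsetSum]
    refine Finset.sum_congr rfl fun i _ => ?_
    rw [Polynomial.eval_monomial, D.leibniz, ← map_pow, D.map_algebraMap, smul_zero, zero_add,
      smul_eq_mul, mul_comm]
  have hq0 : q = 0 := by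
    have hk : Infinite k := CharZero.infinite k
    refine Polynomial.eq_zero_of_infinite_isRoot q
      ((Set.infinite_range_of_injective (algebraMap k L).injective).mono ?_)
    rintro _ ⟨c, rfl⟩
    exact hq c
  have hco : ∀ i, D (p.coeff i) = 0 := by
    intro i
    by_cases hi : i < p.natDegree + 1
    · have h1 : q.coeff i = D (p.coeff i) := by
        simp only [q, Polynomial.finsetSum_coeff, Polynomial.coeff_monomial]
        rw [Finset.sum_ite_eq' (Finset.range (p.natDegree + 1)) i,
          if_pos (Finset.mem_range.2 hi)]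
      rw [← h1, hq0, Polynomial.coeff_zero]
    · rw [Polynomial.coeff_eq_zero_of_natDegree_lt (by omega), map_zero]
  have halg : IsAlgebraic (Pool.Agent.W602.GT.consts D) (σ x) := by
    let P : Polynomial (Pool.Agent.W602.GT.consts D) :=
      ∑ i ∈ Finset.range (p.natDegree + 1), Polynomial.monomial i ⟨p.coeff i, hco i⟩
    have hP : P.map (algebraMap (Pool.Agent.W602.GT.consts D) L) = p := by
      conv_rhs => rw [Polynomial.as_sum_range p]
      rw [Polynomial.map_sum]
      refine Finset.sum_congr rfl fun i _ => ?_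
      rw [Polynomial.map_monomial]
      rfl
    refine ⟨P, fun h0 => hp0 (by rw [← hP, h0, Polynomial.map_zero]), ?_⟩
    rw [Polynomial.aeval_def, ← Polynomial.eval_map, hP, hpx]
  have h1 := der_alg D halg
  rw [hD1] at h1
  exact one_ne_zero h1

/-- Algebraically independent norms. -/
theorem indep_norms {R : Set L} (hR : ∀ x ∈ R, ∀ c : k, algebraMap k L c - x ∈ R) {h : ℕ}
    {z : Fin h → L} (hz : AlgebraicIndependent k z) (hzR : ∀ i, ∃ x ∈ R, ∃ σ : L ≃ₐ[K] L,
      z i = σ x) :
    ∃ x : Fin h → L, (∀ i, x i ∈ R) ∧ AlgebraicIndependent k fun i => Algebra.norm K (x i) := by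
  classical
  let S : Set L := (fun x => algebraMap K L (Algebra.norm K x)) '' R
  let M : IntermediateField k L := IntermediateField.adjoin k S
  have halg : ∀ i, IsAlgebraic M (z i) := by
    intro i
    obtain ⟨x, hx, σ, hσ⟩ := hzR i
    rw [hσ]
    exact alg_norm hR hx σ
  let A : IntermediateField k L := (algebraicClosure M L).restrictScalars k
  have hA : ∀ x : L, x ∈ A ↔ IsAlgebraic M x := fun x => mem_algebraicClosure_iff
  have hSA : ∀ x ∈ S, x ∈ A := fun x hx => (hA x).2
    (isAlgebraic_algebraMap (⟨x, IntermediateField.subset_adjoin _ _ hx⟩ : M))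
  let t : Set A := {a | (a : L) ∈ S}
  have hadj : ∀ x : L, x ∈ Algebra.adjoin k S → ∃ a ∈ Algebra.adjoin k t, (a : L) = x := by
    intro x hx
    have h1 : Algebra.adjoin k S ≤ (Algebra.adjoin k t).map A.val := by
      rw [Algebra.adjoin_le_iff]
      intro s hs
      exact ⟨⟨s, hSA s hs⟩, Algebra.subset_adjoin hs, rfl⟩
    exact h1 hx
  choose φ hφ1 hφ2 using hadj
  let f : Algebra.adjoin k S →+* Algebra.adjoin k t :=
    { toFun := fun x => ⟨φ x x.2, hφ1 x x.2⟩
      map_one' := Subtype.ext (Subtype.ext (hφ2 _ _))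
      map_mul' := fun x x' => Subtype.ext (Subtype.ext (by
        show ((φ (x * x' : L) _ : A) : L) = ((φ x _ : A) : L) * ((φ x' _ : A) : L)
        rw [hφ2, hφ2, hφ2]))
      map_zero' := Subtype.ext (Subtype.ext (hφ2 _ _))
      map_add' := fun x x' => Subtype.ext (Subtype.ext (by
        show ((φ (x + x' : L) _ : A) : L) = ((φ x _ : A) : L) + ((φ x' _ : A) : L)
        rw [hφ2, hφ2, hφ2])) }
  have hAalg : Algebra.IsAlgebraic (Algebra.adjoin k t) A := by
    refine ⟨fun a => ?_⟩
    have h1 : IsAlgebraic (Algebra.adjoin k S) (a : L) :=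
      IntermediateField.isAlgebraic_adjoin_iff.1 ((hA a).1 a.2)
    have h2 : IsAlgebraic (Algebra.adjoin k t) (algebraMap A L a) :=
      Pool.Agent.H891.KS.isAlg_of_hom f (fun x x' hxx => by
        have h3 := congrArg (fun w : Algebra.adjoin k t => ((w : A) : L)) hxx
        change ((φ x _ : A) : L) = ((φ x' _ : A) : L) at h3
        rw [hφ2, hφ2] at h3
        exact Subtype.ext h3) (fun x => hφ2 x x.2) h1
    exact (isAlgebraic_algebraMap_iff (algebraMap A L).injective).1 h2
  obtain ⟨u, -, hut, hu⟩ := exists_isTranscendenceBasis_between (R := k) (∅ : Set A) t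
    (Set.empty_subset _) ((algebraicIndependent_empty_iff ..).2 (algebraMap k A).injective)
  let z' : Fin h → A := fun i => ⟨z i, (hA _).2 (halg i)⟩
  have hz' : AlgebraicIndependent k z' := by
    have h1 : AlgebraicIndependent k (A.val ∘ z') := hz
    exact h1.of_comp A.val
  have h1 : ((h : ℕ) : Cardinal) ≤ Algebra.trdeg k A := by
    have := hz'.lift_cardinalMk_le_trdeg
    simpa using this
  rw [← hu.cardinalMk_eq_trdeg] at h1
  have h4 : Nonempty (Fin h ↪ u) := by
    rw [← Cardinal.lift_mk_le']
    simpa using h1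
  obtain ⟨g⟩ := h4
  have h5 : ∀ i, ∃ x ∈ R, algebraMap K L (Algebra.norm K x) = ((g i : A) : L) := fun i =>
    hut (g i).2
  choose x hx1 hx2 using h5
  refine ⟨x, hx1, ?_⟩
  have h6 : AlgebraicIndependent k fun i : Fin h => (g i : A) := hu.1.comp g g.injective
  have h7 : AlgebraicIndependent k fun i : Fin h => ((g i : A) : L) :=
    h6.map' (f := A.val) A.val.injective
  have h8 : (fun i : Fin h => ((g i : A) : L)) =
      (IsScalarTower.toAlgHom k K L) ∘ fun i => Algebra.norm K (x i) :=
    funext fun i => (hx2 i).symm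
  rw [h8] at h7
  exact h7.of_comp _

end

end Pool.Agent.H891.RH
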