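import Pool.Agent.H891.RH.Main
import Pool.Agent.H891.RH.NormT

/-! Ratios of sections, and the Kodaira dimension. -/

set_option autoImplicit false
set_option linter.overlappingInstances false
set_option linter.unusedSectionVars false

open FF IntermediateField Pool.Agent.W619.PQ Pool.Agent.W619.PL Pool.Agent.W619.TW
  Pool.Agent.W603.LV Pool.Agent.W619.Y Pool.Agent.Y174 Pool.Agent.W824.PG Pool.Agent.H891.BL
open scoped Matrix Kronecker

namespace Pool.Agent.H891.RH

section

variable {k M : Type} [Field k] [Field M] [Algebra k M] {n : ℕ} {δ : Place k M → ℝ}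

theorem sec_mul {m m' : ℕ} {ω ω' : (Fin n → Derivation k M M) → M}
    (hω : PairSec k M n δ {1} m 0 ω) (hω' : PairSec k M n δ {1} m' 0 ω') :
    PairSec k M n δ {1} (m + m') 0 fun X => ω X * ω' X := by
  refine ⟨fun A X => ?_, fun v hv X hX => ?_⟩
  · have h1 := hω.1 A X
    have h2 := hω'.1 A X
    show ω (fun i => ∑ j, A i j • X j) * ω' (fun i => ∑ j, A i j • X j) = _
    rw [h1, h2, pow_add]
    ring
  · show ω X * ω' X = 0 ∨ ∃ s ∈ ({1} : Finset M), s ≠ 0 ∧
      ((0 : ℕ) : ℝ) * v.ord s - ((m + m' : ℕ) : ℝ) * δ v ≤ v.ord (ω X * ω' X)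
    by_cases h1 : ω X = 0
    · exact Or.inl (by rw [h1, zero_mul])
    by_cases h2 : ω' X = 0
    · exact Or.inl (by rw [h2, mul_zero])
    right
    refine ⟨1, Finset.mem_singleton_self _, one_ne_zero, ?_⟩
    obtain ⟨s, -, -, h3⟩ := (hω.2 v hv X hX).resolve_left h1
    obtain ⟨s', -, -, h4⟩ := (hω'.2 v hv X hX).resolve_left h2
    rw [v.ord_mul h1 h2]
    push_cast at h3 h4 ⊢
    linarith

theorem sec_one : PairSec k M n δ {1} 0 0 fun _ => 1 :=
  ⟨fun A X => by simp, fun v _ X _ => Or.inr ⟨1, Finset.mem_singleton_self _, one_ne_zero, by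
    simp [v.ord_one]⟩⟩

theorem sec_pow' {m : ℕ} {ω : (Fin n → Derivation k M M) → M}
    (hω : PairSec k M n δ {1} m 0 ω) (a : ℕ) :
    PairSec k M n δ {1} (a * m) 0 fun X => ω X ^ a := by
  induction a with
  | zero => simpa using sec_one (k := k) (M := M) (n := n) (δ := δ)
  | succ a ih =>
    have h1 := sec_mul ih hω
    rw [Nat.succ_mul]
    simpa only [pow_succ] using h1

theorem sec_prod' {ι : Type} (s : Finset ι) {m : ℕ} {ω : ι → (Fin n → Derivation k M M) → M}
    (hω : ∀ i ∈ s, PairSec k M n δ {1} m 0 (ω i)) :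
    PairSec k M n δ {1} (s.card * m) 0 fun X => ∏ i ∈ s, ω i X := by
  classical
  induction s using Finset.induction_on with
  | empty => simpa using sec_one (k := k) (M := M) (n := n) (δ := δ)
  | insert i s hi ih =>
    have h1 := sec_mul (hω i (Finset.mem_insert_self _ _))
      (ih fun j hj => hω j (Finset.mem_insert_of_mem hj))
    have h2 : (fun X => ∏ i ∈ insert i s, ω i X) = fun X => ω i X * ∏ i ∈ s, ω i X := by
      funext X
      exact Finset.prod_insert hi
    rw [h2, Finset.card_insert_of_notMem hi, Nat.add_mul, one_mul, Nat.add_comm]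
    exact h1

/-- linear combinations -/
theorem sec_sub {m : ℕ} {ω ω' : (Fin n → Derivation k M M) → M}
    (hω : PairSec k M n δ {1} m 0 ω) (hω' : PairSec k M n δ {1} m 0 ω') (c : k) :
    PairSec k M n δ {1} m 0 fun X => algebraMap k M c * ω X - ω' X := by
  refine ⟨fun A X => ?_, fun v hv X hX => ?_⟩
  · have h1 := hω.1 A X
    have h2 := hω'.1 A X
    show algebraMap k M c * ω (fun i => ∑ j, A i j • X j) - ω' (fun i => ∑ j, A i j • X j) = _
    rw [h1, h2]
    ring
  · show algebraMap k M c * ω X - ω' X = 0 ∨ ∃ s ∈ ({1} : Finset M), s ≠ 0 ∧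
      ((0 : ℕ) : ℝ) * v.ord s - (m : ℝ) * δ v ≤ v.ord (algebraMap k M c * ω X - ω' X)
    by_cases h0 : algebraMap k M c * ω X - ω' X = 0
    · exact Or.inl h0
    right
    refine ⟨1, Finset.mem_singleton_self _, one_ne_zero, ?_⟩
    rw [Nat.cast_zero, zero_mul, zero_sub]
    have hb : ∀ z : M, ∀ η : (Fin n → Derivation k M M) → M, PairSec k M n δ {1} m 0 η →
        z = η X → z = 0 ∨ -((m : ℝ) * δ v) ≤ v.ord z := by
      rintro z η hη rfl
      rcases hη.2 v hv X hX with h1 | ⟨s, -, -, h1⟩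
      · exact Or.inl h1
      · right
        simpa using h1
    by_cases hc : c = 0
    · rw [hc, map_zero, zero_mul, zero_sub] at h0 ⊢
      rcases hb _ _ hω' rfl with h1 | h1
      · rw [h1, neg_zero] at h0
        exact (h0 rfl).elim
      · rwa [v.ord_neg]
    have hc0 : algebraMap k M c ≠ 0 := by
      rwa [Ne, map_eq_zero_iff _ (algebraMap k M).injective]
    by_cases h1 : ω X = 0
    · rw [h1, mul_zero, zero_sub] at h0 ⊢
      rcases hb _ _ hω' rfl with h2 | h2
      · rw [h2, neg_zero] at h0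
        exact (h0 rfl).elim
      · rwa [v.ord_neg]
    by_cases h2 : ω' X = 0
    · rw [h2, sub_zero, v.ord_mul hc0 h1, v.ord_const hc, zero_add]
      exact (hb _ _ hω rfl).resolve_left h1
    have h3 := (hb _ _ hω rfl).resolve_left h1
    have h4 := (hb _ _ hω' rfl).resolve_left h2
    have h5 : min (v.ord (algebraMap k M c * ω X)) (v.ord (-ω' X)) ≤
        v.ord (algebraMap k M c * ω X + -ω' X) := by
      refine v.ord_add (mul_ne_zero hc0 h1) (neg_ne_zero.2 h2) ?_
      rwa [← sub_eq_add_neg]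
    rw [v.ord_mul hc0 h1, v.ord_const hc, zero_add, v.ord_neg] at h5
    rw [sub_eq_add_neg]
    rcases min_le_iff.1 h5 with h6 | h6
    · exact h3.trans (by exact_mod_cast h6)
    · exact h4.trans (by exact_mod_cast h6)

end

end Pool.Agent.H891.RH
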