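import Pool.Agent.H891.RH.Ratio

/-! The Kodaira dimension. -/

set_option autoImplicit false
set_option linter.overlappingInstances false
set_option linter.unusedSectionVars false

open FF IntermediateField Pool.Agent.W619.PQ Pool.Agent.W619.PL Pool.Agent.W619.TW
  Pool.Agent.W603.LV Pool.Agent.W619.Y Pool.Agent.Y174 Pool.Agent.W824.PG Pool.Agent.H891.BL
open scoped Matrix Kronecker

namespace Pool.Agent.H891.RH

section

variable {k M : Type} [Field k] [Field M] [Algebra k M] {n : ℕ} {δ : Place k M → ℝ}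

/-- `x` is the ratio of two sections of `m (K + Δ)` on the variety with function field `M`, for
some `m ≥ 1`. -/
def IsSecRatio (n : ℕ) (δ : Place k M → ℝ) (x : M) : Prop :=
  ∃ m : ℕ, 1 ≤ m ∧ ∃ ω ω' : (Fin n → Derivation k M M) → M, PairSec k M n δ {1} m 0 ω ∧
    PairSec k M n δ {1} m 0 ω' ∧ ∃ X, ω' X ≠ 0 ∧ x = ω X / ω' X

theorem ratio_sub {x : M} (hx : IsSecRatio (k := k) n δ x) (c : k) :
    IsSecRatio (k := k) n δ (algebraMap k M c - x) := by
  obtain ⟨m, hm, ω, ω', hω, hω', X, hX, rfl⟩ := hx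
  refine ⟨m, hm, _, ω', sec_sub hω' hω c, hω', X, hX, ?_⟩
  show _ = (algebraMap k M c * ω' X - ω X) / ω' X
  rw [sub_div, mul_div_cancel_right₀ _ hX]

variable [CharZero k]

/-- the ratio can be computed in a given frame -/
theorem ratio_frame {x : M} (hx : IsSecRatio (k := k) n δ x) {t : Fin n → M}
    (ht : IsTranscendenceBasis k t) {F : Fin n → Derivation k M M}
    (hF : ∀ l l', F l (t l') = if l = l' then 1 else 0) :
    ∃ m : ℕ, 1 ≤ m ∧ ∃ ω ω' : (Fin n → Derivation k M M) → M, PairSec k M n δ {1} m 0 ω ∧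
      PairSec k M n δ {1} m 0 ω' ∧ ω' F ≠ 0 ∧ x = ω F / ω' F := by
  obtain ⟨m, hm, ω, ω', hω, hω', X, hX, rfl⟩ := hx
  have h1 : (fun i => ∑ j, (Matrix.of fun i j => X i (t j)) i j • F j) = X := by
    funext i
    exact Pool.Agent.W73.PG.PULL.expand t ht F hF (X i)
  have h2 : ω X = (Matrix.of fun i j => X i (t j)).det ^ m * ω F := by
    have h3 := hω.1 (Matrix.of fun i j => X i (t j)) F
    rwa [h1] at h3
  have h3 : ω' X = (Matrix.of fun i j => X i (t j)).det ^ m * ω' F := by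
    have h3 := hω'.1 (Matrix.of fun i j => X i (t j)) F
    rwa [h1] at h3
  rw [h3] at hX
  refine ⟨m, hm, ω, ω', hω, hω', right_ne_zero_of_mul hX, ?_⟩
  rw [h2, h3, mul_div_mul_left _ _ (left_ne_zero_of_mul hX)]

end

section

variable {k K : Type} [Field k] [Field K] [Algebra k K] [CharZero k]
  {L : IntermediateField K (AlgebraicClosure K)} {r n : ℕ} {c y f : Fin r → ℕ}
  {Y : Fin r → IntermediateField k L} [FiniteDimensional K L] [IsGalois K L]

/-- **The Kodaira dimension of varieties with multivalued maps.** -/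
theorem rh_kod (hess : Algebra.EssFiniteType k K) (hn : Algebra.trdeg k K = n)
    [∀ j, Algebra.EssFiniteType k (Y j)] {B : Fin r → IntermediateField k (AlgebraicClosure K)}
    (h : ∀ j, IsFibres L (Y j) (B j) n (y j) (f j)) {d d' : ℕ} (hd' : 1 ≤ d')
    (hdd : d + d' = ∑ j, c j) (hBL : BLDist n B f c d) (hs : ∑ j, c j * f j = d * n)
    (hc : ∀ j, 1 ≤ c j) {δ : Place k K → ℝ} {δY : ∀ j, Place k (Y j) → ℝ}
    (hram : RamBound n L δ Y δY c d') (hkod : ∀ j, PairKod k (Y j) (y j) (δY j) 0) {a : ℕ}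
    {z : Fin a → L} (hz : AlgebraicIndependent k z)
    (hzR : ∀ i, ∃ (j : Fin r) (x : Y j) (σ : L ≃ₐ[K] L), IsSecRatio (k := k) (y j) (δY j) x ∧
      z i = σ x) :
    PairKod k K n δ a := by
  classical
  obtain ⟨D, hD, hrh⟩ := rh hess hn h hd' hdd hBL hs
  obtain ⟨y₀, hy₀⟩ := Pool.Agent.W636.PG.exists_basis k K n hn
  obtain ⟨E, hE⟩ := Pool.Agent.W636.PG.exists_duals k K n _ hy₀
  have hb : ∀ j, ∃ t : Fin (y j) → Y j, IsTranscendenceBasis k t := fun j =>
    Pool.Agent.W636.PG.exists_basis k (Y j) (y j) (h j).dim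
  choose t ht using hb
  have hFr : ∀ j, ∃ F : Fin (y j) → Derivation k (Y j) (Y j),
      ∀ l l', F l (t j l') = if l = l' then 1 else 0 := fun j =>
    Pool.Agent.W636.PG.exists_duals k (Y j) (y j) _ (ht j)
  choose F hF using hFr
  obtain ⟨ρ, hρ, hsec⟩ := hrh y₀ E t F hy₀ hE ht hF
  -- the norms
  let R : Set L := {x | ∃ (j : Fin r) (x' : Y j), IsSecRatio (k := k) (y j) (δY j) x' ∧ x = x'}
  have hR : ∀ x ∈ R, ∀ c : k, algebraMap k L c - x ∈ R := by
    rintro x ⟨j, x', hx', rfl⟩ c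
    exact ⟨j, algebraMap k (Y j) c - x', ratio_sub hx' c, rfl⟩
  obtain ⟨x, hxR, hx⟩ := indep_norms (K := K) hR hz fun i => by
    obtain ⟨j, x, σ, hx, hzi⟩ := hzR i
    exact ⟨x, ⟨j, x, hx, rfl⟩, σ, hzi⟩
  choose J x' hx' hxx' using hxR
  have hrat : ∀ i, ∃ m : ℕ, 1 ≤ m ∧ ∃ ω ω' : (Fin (y (J i)) → Derivation k (Y (J i)) (Y (J i))) →
      Y (J i), PairSec k (Y (J i)) (y (J i)) (δY (J i)) {1} m 0 ω ∧
      PairSec k (Y (J i)) (y (J i)) (δY (J i)) {1} m 0 ω' ∧ ω' (F (J i)) ≠ 0 ∧
      x' i = ω (F (J i)) / ω' (F (J i)) := fun i => ratio_frame (hx' i) (ht _) (hF _)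
  choose m hm s s' hs1 hs'1 hs'0 hxs using hrat
  -- the base sections
  have hbase : ∀ j, ∃ m : ℕ, 1 ≤ m ∧ ∃ ω : (Fin (y j) → Derivation k (Y j) (Y j)) → Y j,
      PairSec k (Y j) (y j) (δY j) {1} m 0 ω ∧ ω (F j) ≠ 0 := by
    intro j
    obtain ⟨m, hm, ω, hω, X, hX, -⟩ := hkod j
    obtain ⟨m', hm', ω1, ω2, h1, h2, h3, -⟩ := ratio_frame (x := ω 0 X / ω 0 X)
      ⟨m, hm, ω 0, ω 0, hω 0, hω 0, X, hX 0, rfl⟩ (ht j) (hF j)
    exact ⟨m', hm', ω2, h2, h3⟩
  choose e he u hu hu0 using hbase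
  -- the common degree
  let A : ℕ := (∏ i, m i) * ∏ j, e j
  have hA : 1 ≤ A := Nat.mul_pos (Finset.prod_pos fun i _ => hm i) (Finset.prod_pos fun j _ => he j)
  have hmA : ∀ i, ∃ q, 1 ≤ q ∧ A = q * m i := by
    intro i
    obtain ⟨q, hq⟩ : m i ∣ A := Dvd.dvd.mul_right (Finset.dvd_prod_of_mem _ (Finset.mem_univ i)) _
    refine ⟨q, ?_, by rw [hq, mul_comm]⟩
    rcases Nat.eq_zero_or_pos q with h0 | h0
    · rw [h0, mul_zero] at hq
      omega
    · exact h0
  have heA : ∀ j, ∃ q, 1 ≤ q ∧ A = q * e j := by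
    intro j
    obtain ⟨q, hq⟩ : e j ∣ A := Dvd.dvd.mul_left (Finset.dvd_prod_of_mem _ (Finset.mem_univ j)) _
    refine ⟨q, ?_, by rw [hq, mul_comm]⟩
    rcases Nat.eq_zero_or_pos q with h0 | h0
    · rw [h0, mul_zero] at hq
      omega
    · exact h0
  choose qm hqm hqmA using hmA
  choose qe hqe hqeA using heA
  let U : ∀ j, (Fin (y j) → Derivation k (Y j) (Y j)) → Y j := fun j X => u j X ^ qe j
  have hU : ∀ j, PairSec k (Y j) (y j) (δY j) {1} A 0 (U j) := by
    intro j
    rw [hqeA j]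
    exact sec_pow' (hu j) _
  have hU0 : ∀ j, U j (F j) ≠ 0 := fun j => pow_ne_zero _ (hu0 j)
  let P : Fin a → ∀ j, (Fin (y j) → Derivation k (Y j) (Y j)) → Y j := fun i =>
    Function.update U (J i) fun X => s i X ^ qm i
  let Q : Fin a → ∀ j, (Fin (y j) → Derivation k (Y j) (Y j)) → Y j := fun i =>
    Function.update U (J i) fun X => s' i X ^ qm i
  have hupd : ∀ (i : Fin a) (g : (Fin (y (J i)) → Derivation k (Y (J i)) (Y (J i))) → Y (J i)),
      PairSec k (Y (J i)) (y (J i)) (δY (J i)) {1} (m i) 0 g → ∀ j,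
      PairSec k (Y j) (y j) (δY j) {1} A 0 (Function.update U (J i) (fun X => g X ^ qm i) j) := by
    intro i g hg j
    by_cases hj : j = J i
    · subst hj
      rw [Function.update_self, hqmA i]
      exact sec_pow' hg _
    · rw [Function.update_of_ne hj]
      exact hU j
  have hP : ∀ i j, PairSec k (Y j) (y j) (δY j) {1} A 0 (P i j) := fun i => hupd i _ (hs1 i)
  have hQ : ∀ i j, PairSec k (Y j) (y j) (δY j) {1} A 0 (Q i j) := fun i => hupd i _ (hs'1 i)
  have hQ0 : ∀ i j, Q i j (F j) ≠ 0 := by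
    intro i j
    by_cases hj : j = J i
    · subst hj
      simp only [Q, Function.update_self]
      exact pow_ne_zero _ (hs'0 i)
    · simp only [Q]
      rw [Function.update_of_ne hj]
      exact hU0 j
  let nm : ∀ j, Y j → K := fun j z => Algebra.norm K (z : L)
  have hnm : ∀ (i : Fin a), ∏ j, nm j (P i j (F j)) ^ c j =
      (Algebra.norm K (x i)) ^ (qm i * c (J i)) * ∏ j, nm j (Q i j (F j)) ^ c j := by
    intro i
    have h1 : ∀ G : ∀ j, (Fin (y j) → Derivation k (Y j) (Y j)) → Y j,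
        ∏ j, nm j (G j (F j)) ^ c j = nm (J i) (G (J i) (F (J i))) ^ c (J i) *
          ∏ j ∈ Finset.univ.erase (J i), nm j (G j (F j)) ^ c j := fun G =>
      (Finset.mul_prod_erase _ _ (Finset.mem_univ _)).symm
    rw [h1 (P i), h1 (Q i), ← mul_assoc]
    have h2 : ∀ j ∈ Finset.univ.erase (J i), nm j (P i j (F j)) ^ c j = nm j (Q i j (F j)) ^ c j := by
      intro j hj
      simp only [P, Q]
      rw [Function.update_of_ne (Finset.ne_of_mem_erase hj),
        Function.update_of_ne (Finset.ne_of_mem_erase hj)]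
    rw [Finset.prod_congr rfl h2]
    congr 1
    simp only [P, Q, Function.update_self]
    have h3 : (x i : L) = ((s i (F (J i)) : Y (J i)) : L) / (s' i (F (J i)) : Y (J i)) := by
      rw [hxx' i, hxs i]
      rfl
    have h4 : ((s' i (F (J i)) : Y (J i)) : L) ≠ 0 := fun h0 => hs'0 i (Subtype.ext h0)
    have h5 : nm (J i) (s i (F (J i))) = Algebra.norm K (x i) * nm (J i) (s' i (F (J i))) := by
      show Algebra.norm K ((s i (F (J i)) : Y (J i)) : L) = _ * Algebra.norm K _
      rw [← map_mul, h3, div_mul_cancel₀ _ h4]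
    have h6 : ∀ (z : Y (J i)) (b : ℕ), nm (J i) (z ^ b) = nm (J i) z ^ b := fun z b => by
      show Algebra.norm K ((z ^ b : Y (J i)) : L) = Algebra.norm K (z : L) ^ b
      rw [← map_pow]
      rfl
    rw [h6, h6, h5, mul_pow, ← pow_mul, mul_pow, ← pow_mul, ← pow_mul]
  -- the sections
  let ev : (∀ j, (Fin (y j) → Derivation k (Y j) (Y j)) → Y j) → K := fun G =>
    ∏ j, nm j (G j (F j)) ^ c j
  let G : Fin (a + 1) → Fin (a + 1) → ∀ j, (Fin (y j) → Derivation k (Y j) (Y j)) → Y j :=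
    fun l l' => if l' = 0 then U else if l = l' then
      (Fin.cases U P l' : ∀ j, (Fin (y j) → Derivation k (Y j) (Y j)) → Y j) else
      (Fin.cases U Q l' : ∀ j, (Fin (y j) → Derivation k (Y j) (Y j)) → Y j)
  have hG : ∀ l l' j, PairSec k (Y j) (y j) (δY j) {1} A 0 (G l l' j) := by
    intro l l' j
    simp only [G]
    split_ifs with h1 h2
    · exact hU j
    · refine Fin.cases ?_ (fun i => ?_) l'
      · exact hU j
      · exact hP i j
    · refine Fin.cases ?_ (fun i => ?_) l'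
      · exact hU j
      · exact hQ i j
  let T : ℕ := (a + 1) * A
  have hη : ∀ l j, PairSec k (Y j) (y j) (δY j) {1} (T * (D * c j)) 0
      (fun X => (∏ l', G l l' j X) ^ (D * c j)) := by
    intro l j
    have h1 := sec_prod' (Finset.univ : Finset (Fin (a + 1))) (ω := fun l' => G l l' j)
      fun l' _ => hG l l' j
    rw [Finset.card_univ, Fintype.card_fin] at h1
    have h2 := sec_pow' h1 (D * c j)
    have h3 : D * c j * ((a + 1) * A) = T * (D * c j) := by
      simp only [T]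
      ring
    rw [h3] at h2
    exact h2
  have hω : ∀ l, ∃ ω, PairSec k K n δ {1} (T * (D * d' * Nat.card (L ≃ₐ[K] L) ^ 2)) 0 ω ∧
      ω E = ρ ^ T * (∏ l', ev (G l l')) ^ (D * Nat.card (L ≃ₐ[K] L)) := by
    intro l
    obtain ⟨ω, h1, h2⟩ := hsec δ δY hram T _ (hη l)
    refine ⟨ω, h1, ?_⟩
    rw [h2]
    congr 1
    have h3 : ∀ j, Algebra.norm K (((∏ l', G l l' j (F j)) ^ (D * c j) : Y j) : L) =
        (∏ l', nm j (G l l' j (F j)) ^ c j) ^ D := by
      intro j
      have h4 : (((∏ l', G l l' j (F j)) ^ (D * c j) : Y j) : L) =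
          (∏ l', ((G l l' j (F j) : Y j) : L)) ^ (D * c j) := by
        have h5 : ∀ z : Y j, (z : L) = algebraMap (Y j) L z := fun _ => rfl
        rw [h5, map_pow, map_prod]
        rfl
      rw [h4, map_pow, map_prod, mul_comm D, pow_mul, Finset.prod_pow]
    simp only [h3, ev]
    rw [Finset.prod_pow, Finset.prod_pow, Finset.prod_comm, pow_mul]
  choose ω hω1 hω2 using hω
  have hev0 : ∀ l', ev (G 0 l') ≠ 0 := by
    intro l'
    refine Finset.prod_ne_zero_iff.2 fun j _ => pow_ne_zero _ ?_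
    show Algebra.norm K _ ≠ 0
    rw [Ne, Algebra.norm_eq_zero_iff]
    intro h0
    have h1 : G 0 l' j (F j) = 0 := Subtype.ext h0
    simp only [G] at h1
    split_ifs at h1 with h2 h3
    · exact hU0 j h1
    · exact h2 h3.symm
    · obtain ⟨i, rfl⟩ := Fin.exists_succ_eq.2 h2
      exact hQ0 i j h1
  have hω0 : ω 0 E ≠ 0 := by
    rw [hω2]
    exact mul_ne_zero (pow_ne_zero _ hρ) (pow_ne_zero _ (Finset.prod_ne_zero_iff.2 fun l' _ =>
      hev0 l'))
  have hval : ∀ i : Fin a, ω i.succ E = (Algebra.norm K (x i)) ^ (qm i * c (J i) *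
      (D * Nat.card (L ≃ₐ[K] L))) * ω 0 E := by
    intro i
    rw [hω2, hω2]
    have h1 : ∏ l', ev (G i.succ l') =
        (Algebra.norm K (x i)) ^ (qm i * c (J i)) * ∏ l', ev (G 0 l') := by
      rw [← Finset.mul_prod_erase _ _ (Finset.mem_univ i.succ),
        ← Finset.mul_prod_erase (a := i.succ) _ (fun l' => ev (G 0 l')) (Finset.mem_univ i.succ),
        ← mul_assoc]
      have h2 : ev (G i.succ i.succ) = (Algebra.norm K (x i)) ^ (qm i * c (J i)) *
          ev (G 0 i.succ) := by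
        have h3 : G i.succ i.succ = P i := by
          simp only [G]
          rw [if_neg (Fin.succ_ne_zero i), if_pos trivial]
          rfl
        have h4 : G 0 i.succ = Q i := by
          simp only [G]
          rw [if_neg (Fin.succ_ne_zero i), if_neg (Fin.succ_ne_zero i).symm]
          rfl
        rw [h3, h4]
        exact hnm i
      rw [h2]
      congr 1
      refine Finset.prod_congr rfl fun l' hl' => ?_
      have h3 : G i.succ l' = G 0 l' := by
        simp only [G]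
        by_cases h0 : l' = 0
        · rw [if_pos h0, if_pos h0]
        · rw [if_neg h0, if_neg h0, if_neg (Ne.symm (Finset.ne_of_mem_erase hl')),
            if_neg (Ne.symm h0)]
      rw [h3]
    rw [h1, mul_pow, ← pow_mul]
    ring
  have hxN : ∀ i, Algebra.norm K (x i) ≠ 0 := by
    intro i h0
    exact hx.transcendental i (h0 ▸ isAlgebraic_zero)
  have hT : 1 ≤ T * (D * d' * Nat.card (L ≃ₐ[K] L) ^ 2) := by
    have : 0 < Nat.card (L ≃ₐ[K] L) := Nat.card_pos
    have hT : 1 ≤ T := Nat.mul_pos (Nat.succ_pos a) hA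
    exact Nat.mul_pos hT (Nat.mul_pos (Nat.mul_pos hD hd') (pow_pos this 2))
  refine ⟨_, hT, ω, hω1, E, ?_, ?_⟩
  · refine Fin.cases hω0 fun i => ?_
    rw [hval]
    exact mul_ne_zero (pow_ne_zero _ (hxN i)) hω0
  · have h1 := hx.polynomial_aeval_of_transcendental (f := fun i => Polynomial.X ^ (qm i *
      c (J i) * (D * Nat.card (L ≃ₐ[K] L)))) fun i => by
        refine (Polynomial.transcendental_X k).pow ?_
        have : 0 < Nat.card (L ≃ₐ[K] L) := Nat.card_pos
        have := hqm i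
        have := hc (J i)
        positivity
    have h2 : (fun l : Fin a => ω l.succ E / ω 0 E) = fun i => Polynomial.aeval
        (Algebra.norm K (x i)) ((Polynomial.X : Polynomial k) ^ (qm i * c (J i) *
          (D * Nat.card (L ≃ₐ[K] L)))) := by
      funext i
      rw [hval, mul_div_cancel_right₀ _ hω0, map_pow, Polynomial.aeval_X]
    rw [h2]
    exact h1

end

end Pool.Agent.H891.RH
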