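import Pool.Agent.H891.RH.Form

/-! The Riemann-Hurwitz inequality for Brascamp-Lieb data. -/

set_option autoImplicit false
set_option linter.overlappingInstances false
set_option linter.unusedSectionVars false

open FF IntermediateField Pool.Agent.W619.PQ Pool.Agent.W619.PL Pool.Agent.W619.TW
  Pool.Agent.W603.LV Pool.Agent.W619.Y Pool.Agent.Y174 Pool.Agent.W824.PG Pool.Agent.H891.BL
open scoped Matrix Kronecker

namespace Pool.Agent.H891.RH

section

variable {k K : Type} [Field k] [Field K] [Algebra k K] [CharZero k]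
  {L : IntermediateField K (AlgebraicClosure K)} {r n : ℕ} {c y f : Fin r → ℕ}
  {Y : Fin r → IntermediateField k L} [FiniteDimensional K L] [IsGalois K L]

/-- **The Riemann-Hurwitz inequality.** -/
theorem rh (hess : Algebra.EssFiniteType k K) (hn : Algebra.trdeg k K = n)
    [∀ j, Algebra.EssFiniteType k (Y j)] {B : Fin r → IntermediateField k (AlgebraicClosure K)}
    (h : ∀ j, IsFibres L (Y j) (B j) n (y j) (f j)) {d d' : ℕ} (hd' : 1 ≤ d')
    (hdd : d + d' = ∑ j, c j) (hBL : BLDist n B f c d) (hs : ∑ j, c j * f j = d * n) :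
    ∃ D : ℕ, 0 < D ∧ ∀ (y₀ : Fin n → K) (E : Fin n → Derivation k K K)
      (t : ∀ j, Fin (y j) → Y j) (F : ∀ j, Fin (y j) → Derivation k (Y j) (Y j)),
      IsTranscendenceBasis k y₀ → (∀ i j, E i (y₀ j) = if i = j then 1 else 0) →
      (∀ j, IsTranscendenceBasis k (t j)) →
      (∀ j l l', F j l (t j l') = if l = l' then 1 else 0) → ∃ ρ : K, ρ ≠ 0 ∧
      ∀ (δ : Place k K → ℝ) (δY : ∀ j, Place k (Y j) → ℝ), RamBound n L δ Y δY c d' →
        ∀ (T : ℕ) (η : ∀ j, (Fin (y j) → Derivation k (Y j) (Y j)) → Y j),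
        (∀ j, PairSec k (Y j) (y j) (δY j) {1} (T * (D * c j)) 0 (η j)) →
        ∃ ω, PairSec k K n δ {1} (T * (D * d' * Nat.card (L ≃ₐ[K] L) ^ 2)) 0 ω ∧
          ω E = ρ ^ T * ∏ j, Algebra.norm K (η j (F j) : L) ^ Nat.card (L ≃ₐ[K] L) := by
  classical
  obtain ⟨x₁, hx₁⟩ := Pool.Agent.W636.PG.exists_basis k K n hn
  have hxΩ₁ : IsTranscendenceBasis k (algebraMap K (AlgebraicClosure K) ∘ x₁) :=
    hx₁.algebraMap_comp
  obtain ⟨G₁, hG₁⟩ := Pool.Agent.W636.PG.exists_duals k (AlgebraicClosure K) n _ hxΩ₁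
  obtain ⟨D, hD, hmat⟩ := exists_mat hxΩ₁ hG₁ hn h hd' hdd hBL hs
  refine ⟨D, hD, fun y₀ E t F hy₀ hE ht hF => ?_⟩
  obtain ⟨X, e, hdet⟩ := hmat t ht
  -- the vector fields of the frame
  obtain ⟨E₁, hE₁⟩ := Pool.Agent.W636.PG.exists_duals k K n _ hx₁
  obtain ⟨H₁, hH₁⟩ := exists_exts (L := L) hn E₁
  obtain ⟨H, hH⟩ := exists_exts (L := L) hn E
  have hGE : ∀ i (x : K), G₁ i (algebraMap K (AlgebraicClosure K) x) =
      algebraMap K (AlgebraicClosure K) (E₁ i x) := by
    intro i x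
    have h1 := Pool.Agent.W73.PG.PULL.chain x₁ hx₁ E₁ hE₁ (G₁ i) x
    rw [h1, Finset.sum_eq_single i]
    · have h2 := hG₁ i i
      rw [if_pos rfl] at h2
      change G₁ i (algebraMap K (AlgebraicClosure K) (x₁ i)) = 1 at h2
      rw [h2, one_mul]
    · intro j _ hj
      have h2 := hG₁ i j
      rw [if_neg (Ne.symm hj)] at h2
      change G₁ i (algebraMap K (AlgebraicClosure K) (x₁ j)) = 0 at h2
      rw [h2, zero_mul]
    · intro h
      exact (h (Finset.mem_univ _)).elim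
  have hdet₁ : (MM X e (fun q => t q.1) H₁).det ≠ 0 := by
    intro h0
    apply hdet
    have h1 : (Matrix.of fun ρ ρ' : Row L c y D => algebraMap k (AlgebraicClosure K)
        (X (e ρ').2 ρ.1) * G₁ (e ρ').1 ((ρ.1.1.2 (t ρ.1.1.1 ρ.2 : L) : L) : AlgebraicClosure K)) =
        (algebraMap L (AlgebraicClosure K)).mapMatrix (MM X e (fun q => t q.1) H₁) := by
      refine Matrix.ext fun ρ ρ' => ?_
      show algebraMap k (AlgebraicClosure K) (X (e ρ').2 ρ.1) * G₁ (e ρ').1
        ((ρ.1.1.2 (t ρ.1.1.1 ρ.2 : L) : L) : AlgebraicClosure K) =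
        algebraMap L (AlgebraicClosure K) (algebraMap k L (X (e ρ').2 ρ.1) *
          H₁ (e ρ').1 (ρ.1.1.2 (t ρ.1.1.1 ρ.2 : L)))
      rw [map_mul, ext_eq hn (hGE (e ρ').1) (hH₁ (e ρ').1)]
      rfl
    rw [h1, ← RingHom.map_det, h0, map_zero]
  have hdet₂ : (MM X e (fun q => t q.1) H).det ≠ 0 := by
    intro h0
    apply hdet₁
    have h1 : H₁ = fun i => ∑ b, ((algebraMap K L).mapMatrix
        (Matrix.of fun i b => E₁ i (y₀ b))) i b • H b := by
      funext i
      refine exts_unique hn (hH₁ i) fun x => ?_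
      rw [Pool.Agent.W721.PG.EFF2.der_sum]
      have h1 := Pool.Agent.W73.PG.PULL.expand y₀ hy₀ E hE (E₁ i)
      have h2 : E₁ i x = ∑ b, E₁ i (y₀ b) * E b x := by
        conv_lhs => rw [← h1]
        rw [Pool.Agent.W721.PG.EFF2.der_sum]
      rw [h2, map_sum]
      refine Finset.sum_congr rfl fun b _ => ?_
      rw [hH, map_mul]
      rfl
    rw [h1, det_frame, h0, mul_zero]
  refine ⟨Algebra.norm K (MM X e (fun q => t q.1) H).det, ?_, fun δ δY hram T η hη => ?_⟩
  · rw [Ne, Algebra.norm_eq_zero_iff]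
    exact hdet₂
  · have h1 := norm_sec hess hn (fun j => (h j).dim) hram rfl X e ht hF hη hy₀ hE hH
    have h2 : T * (d' * Nat.card (L ≃ₐ[K] L) * D * Nat.card (L ≃ₐ[K] L)) =
        T * (D * d' * Nat.card (L ≃ₐ[K] L) ^ 2) := by ring
    rw [h2] at h1
    refine ⟨_, h1, ?_⟩
    have h3 : (Matrix.of fun a b => E a (y₀ b)) = 1 := by
      refine Matrix.ext fun a b => ?_
      rw [Matrix.of_apply, hE, Matrix.one_apply]
    show (Matrix.of fun a b => E a (y₀ b)).det ^ _ * Algebra.norm K _ = _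
    rw [h3, Matrix.det_one, one_pow, one_mul, map_mul, map_pow, map_prod, Fintype.prod_prod_type]
    congr 1
    refine Finset.prod_congr rfl fun j _ => ?_
    have h4 : ∀ σ : L ≃ₐ[K] L, Algebra.norm K (σ (η j (F j) : L)) =
        Algebra.norm K (η j (F j) : L) := fun σ => Algebra.norm_eq_of_algEquiv σ _
    simp only [h4]
    rw [Finset.prod_const, Finset.card_univ, Nat.card_eq_fintype_card]

end

end Pool.Agent.H891.RH
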