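import Mathlib

/-! Determinants of block diagonal matrices with blocks of different sizes. -/

set_option autoImplicit false

namespace Pool.Agent.H891.RH

theorem det_bd {R A : Type*} [CommRing R] [Fintype A] [DecidableEq A] {m : A → Type*}
    [∀ a, Fintype (m a)] [∀ a, DecidableEq (m a)] (N : ∀ a, Matrix (m a) (m a) R) :
    (Matrix.blockDiagonal' N).det = ∏ a, (N a).det := by
  classical
  let ε : A ≃ Fin (Fintype.card A) := Fintype.equivFin A
  have h1 : (Matrix.blockDiagonal' N).BlockTriangular (fun ρ : Σ a, m a => ε ρ.1) := by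
    rintro ⟨a, i⟩ ⟨a', j⟩ h
    refine Matrix.blockDiagonal'_apply_ne N i j fun h2 => ?_
    subst h2
    exact lt_irrefl _ h
  rw [h1.det_fintype, ← Equiv.prod_comp ε]
  refine Finset.prod_congr rfl fun a _ => ?_
  let e : m a ≃ {ρ : Σ a, m a // ε ρ.1 = ε a} :=
    { toFun := fun i => ⟨⟨a, i⟩, rfl⟩
      invFun := fun ρ => (ε.injective ρ.2) ▸ ρ.1.2
      left_inv := fun i => rfl
      right_inv := by
        rintro ⟨⟨b, i⟩, h⟩
        have h2 : b = a := ε.injective h
        subst h2
        rfl }
  rw [← Matrix.det_submatrix_equiv_self e]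
  congr 1
  ext i j
  exact Matrix.blockDiagonal'_apply_eq N a i j

end Pool.Agent.H891.RH
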