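import Pool.Agent.H891.BL.Defs

/-! Multivalued maps: definitions. -/

set_option autoImplicit false
set_option linter.overlappingInstances false
set_option linter.unusedSectionVars false

open FF IntermediateField Pool.Agent.W619.PQ Pool.Agent.W619.TW Pool.Agent.Y174
  Pool.Agent.H891.TY

namespace Pool.Agent.H891.RH

section

variable {k : Type} {K : Type} [Field k] [Field K] [Algebra k K]

/-- Let `L` be the function field of a finite covering of the variety `V` of dimension `n` with
function field `K`, and let `Y ⊆ L` be the function field of a variety of dimension `y`: a rational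
map of the covering to this variety, i.e. a multivalued map of `V`. Its fibres are the covering
family of subvarieties of dimension `f = n - y ≥ 1` which is given by the algebraic closure `B` of
`Y` in the algebraic closure of `K`. -/
structure IsFibres (L : IntermediateField K (AlgebraicClosure K)) (Y : IntermediateField k L)
    (B : IntermediateField k (AlgebraicClosure K)) (n y f : ℕ) : Prop where
  fam : IsFamily B n f
  sub : ∀ z ∈ Y, (z : AlgebraicClosure K) ∈ B
  dim : Algebra.trdeg k Y = y
  add : y + f = n

/-- The pull-back of the divisor with the multiplicities `δM u` on the variety with function field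
`M` has the multiplicity `a` at the place `w` of `L`: it is `1 - e (1 - δM u)` if `w` lies over the
divisor `u` with the ramification index `e`, and `0` if `w` dominates the variety. -/
def IsPullMult {L : Type} [Field L] [Algebra k L] (M : IntermediateField k L)
    (δM : Place k M → ℝ) (w : Place k L) (a : ℝ) : Prop :=
  (∃ (u : Place k M) (e : ℕ), LiesOn w u e ∧ a = 1 - e * (1 - δM u)) ∨
    ((∀ z ∈ M, z ≠ 0 → w.ord z = 0) ∧ a = 0)

/-- The bound for the ramification. Let `Δ'` be the divisor on the covering with the function field
`L` such that `K + Δ'` is the pull-back of `K_V + Δ` (with the multiplicity `1 - e (1 - δ v)` at the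
places over `v` with ramification index `e`), and `Δ' j` the pull-back of the divisor `Δ j` on the
variety `Y j`. Then `∑ (c j / d) Δ' j ≤ Δ'`. If `L = K`, `Δ = 0` and `Δ j = 0` this is always true. -/
def RamBound (n : ℕ) (L : IntermediateField K (AlgebraicClosure K)) (δ : Place k K → ℝ) {r : ℕ}
    (Y : Fin r → IntermediateField k L) (δY : ∀ j, Place k (Y j) → ℝ) (c : Fin r → ℕ) (d : ℕ) :
    Prop :=
  ∀ (w : Place k L) (v : Place k K) (e : ℕ), IsDivisorial w n → LiesOn w v e →
    ∀ a : Fin r → ℝ, (∀ j, IsPullMult (Y j) (δY j) w (a j)) →
      ∑ j, c j * a j ≤ d * (1 - e * (1 - δ v))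

end

end Pool.Agent.H891.RH
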