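import Pool.Agent.H891.RH.Cot
import Pool.Agent.H891.RH.Defs

/-! The Brascamp-Lieb condition for the cotangent spaces. -/

set_option autoImplicit false
set_option linter.overlappingInstances false
set_option linter.unusedSectionVars false

open FF IntermediateField Algebra Pool.Agent.W619.PQ Pool.Agent.W619.PL Pool.Agent.W619.TW
  Pool.Agent.W603.LV Pool.Agent.W619.Y Pool.Agent.Y174 Pool.Agent.Y173.QA Pool.Agent.H891.KS
  Pool.Agent.H891.TY Pool.Agent.H891.RF Pool.Agent.H891.BL

namespace Pool.Agent.H891.RH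

section

variable {k : Type} {K : Type} [Field k] [Field K] [Algebra k K] [CharZero k] {n : ℕ}
  {y₀ : Fin n → K}
  (hx : IsTranscendenceBasis k (algebraMap K (AlgebraicClosure K) ∘ y₀))
  {G : Fin n → Derivation k (AlgebraicClosure K) (AlgebraicClosure K)}
  (hG : ∀ i j, G i ((algebraMap K (AlgebraicClosure K) ∘ y₀) j) = if i = j then 1 else 0)
  {L : IntermediateField K (AlgebraicClosure K)}

theorem base_alg {Y : IntermediateField k L} {B : IntermediateField k (AlgebraicClosure K)}
    {n y f : ℕ} (h : IsFibres L Y B n y f) {t : Fin y → Y} (ht : IsTranscendenceBasis k t) :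
    ∀ z ∈ B, IsAlgebraic (Algebra.adjoin k (Set.range fun i =>
      (((t i : Y) : L) : AlgebraicClosure K))) z := by
  obtain ⟨hc, hf1, d, hd, hdf⟩ := h.fam
  have hdy : d = y := by
    have := h.add
    omega
  subst hdy
  let j : Y →ₐ[k] B :=
    { toFun := fun z => ⟨((z : L) : AlgebraicClosure K), h.sub _ z.2⟩
      map_one' := rfl
      map_mul' := fun _ _ => rfl
      map_zero' := rfl
      map_add' := fun _ _ => rfl
      commutes' := fun _ => rfl }
  have h1 : AlgebraicIndependent k (j ∘ t) := ht.1.map' j.toRingHom.injective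
  have h2 : IsTranscendenceBasis k (j ∘ t) := by
    refine h1.isTranscendenceBasis_of_lift_trdeg_le_of_finite ?_
    rw [hd]
    simp
  intro z hz
  exact (mem_of_alg B hc h2 z).1 hz

include hx hG

theorem orth_base {Y : IntermediateField k L} {B : IntermediateField k (AlgebraicClosure K)}
    {y f : ℕ} (h : IsFibres L Y B n y f) :
    CT G (Vals L Y 1) = CT G (B : Set (AlgebraicClosure K)) := by
  obtain ⟨t, ht⟩ := Pool.Agent.W636.PG.exists_basis k Y y h.dim
  refine ct_alg G ?_ fun z hz => ?_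
  · rintro _ ⟨z, hz, rfl⟩
    exact h.sub z hz
  · refine isAlg_of_hom (Subalgebra.inclusion (Algebra.adjoin_mono ?_)).toRingHom
      (Subalgebra.inclusion_injective _) (fun a => rfl) (base_alg h ht z hz)
    rintro _ ⟨i, rfl⟩
    exact ⟨_, (t i).2, rfl⟩

theorem comap_tan (B : IntermediateField k (AlgebraicClosure K)) :
    (TB G (B : Set (AlgebraicClosure K))).comap (vec hx hG).toLinearMap = Tan B := by
  ext D
  show vec hx hG D ∈ TB G (B : Set (AlgebraicClosure K)) ↔ D ∈ Tan B
  rw [map_tan hx hG, (vec hx hG).symm_apply_apply]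

theorem rank_comap (V : Submodule (AlgebraicClosure K) (Fin n → AlgebraicClosure K)) :
    Module.finrank (AlgebraicClosure K) (V.comap (vec hx hG).toLinearMap) =
      Module.finrank (AlgebraicClosure K) V :=
  LinearEquiv.finrank_eq (LinearEquiv.submoduleMap (vec hx hG).symm V |>.trans
    (LinearEquiv.ofEq _ _ (Submodule.map_equiv_eq_comap_symm (vec hx hG).symm V))).symm

theorem rank_base (hn : Algebra.trdeg k K = n) {Y : IntermediateField k L}
    {B : IntermediateField k (AlgebraicClosure K)} {y f : ℕ} (h : IsFibres L Y B n y f) :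
    Module.finrank (AlgebraicClosure K) (CT G (Vals L Y 1)) = y := by
  have h1 := tan_rank hn h.fam
  rw [← comap_tan hx hG, rank_comap hx hG, tb_eq_orth, ← orth_base hx hG h] at h1
  have h2 := orth_rank (CT G (Vals L Y 1))
  have := h.add
  omega

variable [FiniteDimensional K L] [IsGalois K L]

theorem rank_vals (hn : Algebra.trdeg k K = n) {Y : IntermediateField k L}
    {B : IntermediateField k (AlgebraicClosure K)} {y f : ℕ} (h : IsFibres L Y B n y f)
    (σ : L ≃ₐ[K] L) : Module.finrank (AlgebraicClosure K) (CT G (Vals L Y σ)) = y := by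
  obtain ⟨τ, hτ⟩ := exists_lift L σ
  have h1 : CT G (Vals L Y σ) = gs τ (CT G (Vals L Y 1)) := by
    rw [gs_vals hx hG, hτ, mul_one]
  rw [h1, finrank_gs, rank_base hx hG hn h]

/-- **The dual condition** for the cotangent spaces. -/
theorem cot_BL (hn : Algebra.trdeg k K = n) {r : ℕ} {Y : Fin r → IntermediateField k L}
    {B : Fin r → IntermediateField k (AlgebraicClosure K)} {y f : Fin r → ℕ}
    (h : ∀ j, IsFibres L (Y j) (B j) n (y j) (f j)) {c : Fin r → ℕ} {d d' : ℕ} (hd' : 1 ≤ d')
    (hdd : d + d' = ∑ j, c j) (hBL : BLDist n B f c d) (hs : ∑ j, c j * f j = d * n) :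
    BLc (fun q : Fin r × (L ≃ₐ[K] L) => CT G (Vals L (Y q.1) q.2)) ⊥ ⊤
      (fun q => (c q.1 : ℚ) / (d' * Fintype.card (L ≃ₐ[K] L))) := by
  classical
  set g : ℕ := Fintype.card (L ≃ₐ[K] L) with hg
  have hg0 : 0 < g := Fintype.card_pos_iff.2 ⟨1⟩
  have hd0 : (0 : ℚ) < d' := by exact_mod_cast hd'
  have hgq : (0 : ℚ) < g := by exact_mod_cast hg0
  refine extremal _ (fun q => div_nonneg (Nat.cast_nonneg _)
    (mul_nonneg (Nat.cast_nonneg _) (Nat.cast_nonneg _)))
    (fun (τ : AlgebraicClosure K ≃ₐ[K] AlgebraicClosure K) => gs τ) finrank_gs (fun τ U => ?_)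
    fun W hW => ?_
  · -- invariance
    let e : (Fin r × (L ≃ₐ[K] L)) ≃ (Fin r × (L ≃ₐ[K] L)) :=
      { toFun := fun q => (q.1, τ.restrictNormal L * q.2)
        invFun := fun q => (q.1, (τ.restrictNormal L)⁻¹ * q.2)
        left_inv := fun q => Prod.ext rfl (inv_mul_cancel_left _ _)
        right_inv := fun q => Prod.ext rfl (mul_inv_cancel_left _ _) }
    have h1 : dm (gs τ U) = dm U := by
      unfold dm
      rw [finrank_gs]
    unfold slack
    rw [h1]
    congr 1
    refine (Fintype.sum_equiv e _ _ fun q => ?_).symm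
    show _ = (c q.1 : ℚ) / (d' * g) *
      (dm (CT G (Vals L (Y q.1) (τ.restrictNormal L * q.2)) ⊓ ⊤) -
        dm (CT G (Vals L (Y q.1) (τ.restrictNormal L * q.2)) ⊓ gs τ U))
    have h2 : dm (CT G (Vals L (Y q.1) (τ.restrictNormal L * q.2)) ⊓ gs τ U) =
        dm (CT G (Vals L (Y q.1) q.2) ⊓ U) := by
      rw [← gs_vals hx hG, ← gs_inf]
      unfold dm
      rw [finrank_gs]
    have h3 : dm (CT G (Vals L (Y q.1) (τ.restrictNormal L * q.2)) ⊓ ⊤) =
        dm (CT G (Vals L (Y q.1) q.2) ⊓ ⊤) := by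
      rw [inf_top_eq, inf_top_eq, ← gs_vals hx hG]
      unfold dm
      rw [finrank_gs]
    rw [h2, h3]
  · -- stable subspaces
    have hWo : ∀ τ : AlgebraicClosure K ≃ₐ[K] AlgebraicClosure K, gs τ (orth W) = orth W :=
      fun τ => by rw [gs_orth, hW]
    have h0 := hBL _ (stable_dist hx hG hWo)
    have h2 : ∀ q : Fin r × (L ≃ₐ[K] L), dm (CT G (Vals L (Y q.1) q.2) ⊓ ⊤) = y q.1 := by
      intro q
      rw [inf_top_eq]
      unfold dm
      rw [rank_vals hx hG hn (h q.1)]
    have h3 : ∀ q : Fin r × (L ≃ₐ[K] L), dm (CT G (Vals L (Y q.1) q.2) ⊓ W) =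
        dm (CT G (Vals L (Y q.1) 1) ⊓ W) := fun q => dm_vals hx hG L (Y q.1) q.2 hW
    have h4 : dm (⊤ : Submodule (AlgebraicClosure K) (Fin n → AlgebraicClosure K)) = n := by
      unfold dm
      rw [finrank_top, Module.finrank_fintype_fun_eq_card, Fintype.card_fin]
    have h5 : (Module.finrank (AlgebraicClosure K) ((orth W).comap (vec hx hG).toLinearMap) : ℚ) =
        n - dm W := by
      rw [rank_comap hx hG]
      have h6 := orth_rank W
      unfold dm
      rw [eq_sub_iff_add_eq']
      exact_mod_cast h6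
    have h6 : ∀ j, (Module.finrank (AlgebraicClosure K)
        ((orth W).comap (vec hx hG).toLinearMap ⊓ Tan (B j) : Submodule _ _) : ℚ) =
        n - dm W - y j + dm (CT G (Vals L (Y j) 1) ⊓ W) := by
      intro j
      have h7 : (orth W).comap (vec hx hG).toLinearMap ⊓ Tan (B j) =
          (orth (W ⊔ CT G (Vals L (Y j) 1))).comap (vec hx hG).toLinearMap := by
        rw [← comap_tan hx hG, tb_eq_orth, ← orth_base hx hG (h j), orth_sup]
        rfl
      rw [h7, rank_comap hx hG]
      have h8 := orth_rank (W ⊔ CT G (Vals L (Y j) 1))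
      have h9 := Submodule.finrank_sup_add_finrank_inf_eq W (CT G (Vals L (Y j) 1))
      rw [rank_base hx hG hn (h j)] at h9
      have h10 : ((Module.finrank (AlgebraicClosure K) (W ⊔ CT G (Vals L (Y j) 1) : Submodule _ _) +
        Module.finrank (AlgebraicClosure K) (orth (W ⊔ CT G (Vals L (Y j) 1))) : ℕ) : ℚ) = n := by
        exact_mod_cast h8
      have h11 : ((Module.finrank (AlgebraicClosure K) (W ⊔ CT G (Vals L (Y j) 1) : Submodule _ _) +
        Module.finrank (AlgebraicClosure K) (W ⊓ CT G (Vals L (Y j) 1) : Submodule _ _) : ℕ) : ℚ) =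
          ((Module.finrank (AlgebraicClosure K) W + y j : ℕ) : ℚ) := by
        exact_mod_cast h9
      push_cast at h10 h11
      unfold dm
      rw [inf_comm (CT G (Vals L (Y j) 1)) W]
      linarith
    have h7 : ((d * n + ∑ j, c j * Module.finrank (AlgebraicClosure K)
        ((orth W).comap (vec hx hG).toLinearMap ⊓ Tan (B j) : Submodule _ _) : ℕ) : ℚ) ≤
        ((d * Module.finrank (AlgebraicClosure K) ((orth W).comap (vec hx hG).toLinearMap) +
          ∑ j, c j * f j : ℕ) : ℚ) := by
      exact_mod_cast h0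
    push_cast at h7
    simp only [h6] at h7
    rw [h5] at h7
    have hfy : ∀ j, (f j : ℚ) = n - y j := by
      intro j
      rw [eq_sub_iff_add_eq']
      exact_mod_cast (h j).add
    have hsq : (∑ j, (c j : ℚ) * f j) = d * n := by exact_mod_cast hs
    have hcq : (∑ j, (c j : ℚ)) = d + d' := by exact_mod_cast hdd.symm
    have h8 : ∑ j, (c j : ℚ) * (n - dm W - y j + dm (CT G (Vals L (Y j) 1) ⊓ W)) =
        d * n - (d + d') * dm W + ∑ j, (c j : ℚ) * dm (CT G (Vals L (Y j) 1) ⊓ W) := by
      rw [← hsq, ← hcq, Finset.sum_mul, ← Finset.sum_sub_distrib, ← Finset.sum_add_distrib]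
      refine Finset.sum_congr rfl fun j _ => ?_
      rw [hfy]
      ring
    rw [h8, hsq] at h7
    have h9 : ∑ j, (c j : ℚ) * y j = n * d' := by
      have h10 : ∑ j, (c j : ℚ) * y j = n * (∑ j, (c j : ℚ)) - ∑ j, (c j : ℚ) * f j := by
        rw [Finset.mul_sum, ← Finset.sum_sub_distrib]
        refine Finset.sum_congr rfl fun j _ => ?_
        rw [hfy]
        ring
      rw [h10, hsq, hcq]
      ring
    unfold slack
    simp only [h2, h3]
    rw [h4, Fintype.sum_prod_type]
    have h10 : ∑ j, ∑ _x : (L ≃ₐ[K] L), (c j : ℚ) / (d' * g) *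
        ((y j : ℚ) - dm (CT G (Vals L (Y j) 1) ⊓ W)) =
        (∑ j, (c j : ℚ) * y j - ∑ j, (c j : ℚ) * dm (CT G (Vals L (Y j) 1) ⊓ W)) / d' := by
      rw [← Finset.sum_sub_distrib, Finset.sum_div]
      refine Finset.sum_congr rfl fun j _ => ?_
      rw [Finset.sum_const, Finset.card_univ, nsmul_eq_mul, ← hg]
      field_simp
    rw [h10, h9, sub_nonneg, le_div_iff₀ hd0]
    linarith

end

end Pool.Agent.H891.RH
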