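import Pool.Agent.H891.RH.Orth

/-! The cotangent spaces of the values of a multivalued map. -/

set_option autoImplicit false
set_option linter.overlappingInstances false
set_option linter.unusedSectionVars false

open FF IntermediateField Algebra Pool.Agent.W619.PQ Pool.Agent.W619.PL Pool.Agent.W619.TW
  Pool.Agent.W603.LV Pool.Agent.W619.Y Pool.Agent.Y174 Pool.Agent.Y173.QA Pool.Agent.H891.KS
  Pool.Agent.H891.TY Pool.Agent.H891.RF Pool.Agent.H891.BL

namespace Pool.Agent.H891.RH

section

variable {k : Type} {K : Type} [Field k] [Field K] [Algebra k K] {n : ℕ}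

/-- the span of the differentials of the elements of a set -/
noncomputable def CT (G : Fin n → Derivation k (AlgebraicClosure K) (AlgebraicClosure K))
    (S : Set (AlgebraicClosure K)) : Submodule (AlgebraicClosure K) (Fin n → AlgebraicClosure K) :=
  Submodule.span (AlgebraicClosure K) ((fun z => fun l => G l z) '' S)

theorem tb_eq_orth (G : Fin n → Derivation k (AlgebraicClosure K) (AlgebraicClosure K))
    (S : Set (AlgebraicClosure K)) : TB G S = orth (CT G S) := by
  ext a
  unfold CT
  rw [mem_orth_span]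
  constructor
  · rintro h _ ⟨z, hz, rfl⟩
    exact h z hz
  · intro h z hz
    exact h _ ⟨z, hz, rfl⟩

theorem ct_mono (G : Fin n → Derivation k (AlgebraicClosure K) (AlgebraicClosure K))
    {S S' : Set (AlgebraicClosure K)} (h : S ⊆ S') : CT G S ≤ CT G S' :=
  Submodule.span_mono (Set.image_mono h)

variable [CharZero k]

/-- the cotangent space is generated by a set over which all functions are algebraic -/
theorem ct_alg (G : Fin n → Derivation k (AlgebraicClosure K) (AlgebraicClosure K))
    {S S' : Set (AlgebraicClosure K)} (h : S ⊆ S')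
    (halg : ∀ z ∈ S', IsAlgebraic (Algebra.adjoin k S) z) : CT G S = CT G S' := by
  have h1 : orth (CT G S) = orth (CT G S') := by
    rw [← tb_eq_orth, ← tb_eq_orth]
    apply le_antisymm
    · intro a ha z hz
      have h2 : (∑ l, a l • G l) z = 0 := by
        refine der_alg_set _ (S := S) (fun s hs => ?_) (halg z hz)
        rw [Pool.Agent.W721.PG.EFF2.der_sum]
        exact ha s hs
      rwa [Pool.Agent.W721.PG.EFF2.der_sum] at h2
    · exact fun a ha z hz => ha z (h hz)
  refine Submodule.eq_of_le_of_finrank_eq (ct_mono G h) ?_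
  have h2 := orth_rank (CT G S)
  have h3 := orth_rank (CT G S')
  rw [h1] at h2
  omega

variable {y : Fin n → K}
  (hx : IsTranscendenceBasis k (algebraMap K (AlgebraicClosure K) ∘ y))
  {G : Fin n → Derivation k (AlgebraicClosure K) (AlgebraicClosure K)}
  (hG : ∀ i j, G i ((algebraMap K (AlgebraicClosure K) ∘ y) j) = if i = j then 1 else 0)

include hx hG in
theorem gs_ct (τ : AlgebraicClosure K ≃ₐ[K] AlgebraicClosure K) (S : Set (AlgebraicClosure K)) :
    gs τ (CT G S) = CT G (τ '' S) := by
  have h1 : ∀ (τ : AlgebraicClosure K ≃ₐ[K] AlgebraicClosure K) (S : Set (AlgebraicClosure K)),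
      CT G (τ '' S) ≤ gs τ (CT G S) := by
    intro τ S
    unfold CT
    rw [Submodule.span_le]
    rintro _ ⟨_, ⟨z, hz, rfl⟩, rfl⟩
    show gv τ.symm (fun l => G l (τ z)) ∈ Submodule.span (AlgebraicClosure K)
      ((fun z => fun l => G l z) '' S)
    have h2 : gv τ.symm (fun l => G l (τ z)) = fun l => G l z := by
      funext l
      show τ.symm (G l (τ z)) = G l z
      rw [dual_comm hx hG, τ.symm_apply_apply]
    rw [h2]
    exact Submodule.subset_span ⟨z, hz, rfl⟩
  apply le_antisymm
  · have h2 := gs_sup τ _ _ (h1 τ.symm (τ '' S))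
    rw [gs_symm] at h2
    have h3 : τ.symm '' (τ '' S) = S := by
      rw [← Set.image_comp]
      have h4 : (τ.symm : AlgebraicClosure K → AlgebraicClosure K) ∘ τ = _root_.id :=
        funext fun z => τ.symm_apply_apply z
      rw [h4, Set.image_id]
    rwa [h3] at h2
  · exact h1 τ S

/-- the values of the functions of `Y` under the conjugate `σ` of the multivalued map -/
def Vals (L : IntermediateField K (AlgebraicClosure K)) (Y : IntermediateField k L)
    (σ : L ≃ₐ[K] L) : Set (AlgebraicClosure K) :=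
  {w | ∃ z ∈ Y, w = ((σ z : L) : AlgebraicClosure K)}

theorem vals_image (L : IntermediateField K (AlgebraicClosure K)) [Normal K L]
    (Y : IntermediateField k L) (σ : L ≃ₐ[K] L)
    (τ : AlgebraicClosure K ≃ₐ[K] AlgebraicClosure K) :
    τ '' Vals L Y σ = Vals L Y (τ.restrictNormal L * σ) := by
  have h1 : ∀ z : L, τ ((z : L) : AlgebraicClosure K) =
      ((τ.restrictNormal L z : L) : AlgebraicClosure K) := fun z =>
    (τ.restrictNormal_commutes L z).symm
  ext w
  constructor
  · rintro ⟨_, ⟨z, hz, rfl⟩, rfl⟩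
    exact ⟨z, hz, h1 _⟩
  · rintro ⟨z, hz, rfl⟩
    exact ⟨_, ⟨z, hz, rfl⟩, h1 _⟩

theorem exists_lift (L : IntermediateField K (AlgebraicClosure K)) [Normal K L] (σ : L ≃ₐ[K] L) :
    ∃ τ : AlgebraicClosure K ≃ₐ[K] AlgebraicClosure K, τ.restrictNormal L = σ :=
  AlgEquiv.restrictNormalHom_surjective (AlgebraicClosure K) σ

include hx hG in
theorem gs_vals (L : IntermediateField K (AlgebraicClosure K)) [Normal K L]
    (Y : IntermediateField k L) (σ : L ≃ₐ[K] L)
    (τ : AlgebraicClosure K ≃ₐ[K] AlgebraicClosure K) :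
    gs τ (CT G (Vals L Y σ)) = CT G (Vals L Y (τ.restrictNormal L * σ)) := by
  rw [gs_ct hx hG, vals_image]

include hx hG in
theorem dm_vals (L : IntermediateField K (AlgebraicClosure K)) [Normal K L]
    (Y : IntermediateField k L) (σ : L ≃ₐ[K] L)
    {W : Submodule (AlgebraicClosure K) (Fin n → AlgebraicClosure K)}
    (hW : ∀ τ : AlgebraicClosure K ≃ₐ[K] AlgebraicClosure K, gs τ W = W) :
    dm (CT G (Vals L Y σ) ⊓ W) = dm (CT G (Vals L Y 1) ⊓ W) := by
  obtain ⟨τ, hτ⟩ := exists_lift L σ
  have h1 : CT G (Vals L Y σ) ⊓ W = gs τ (CT G (Vals L Y 1) ⊓ W) := by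
    rw [gs_inf, hW, gs_vals hx hG, hτ, mul_one]
  rw [h1]
  unfold dm
  rw [finrank_gs]

end

end Pool.Agent.H891.RH
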