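import Pool.Agent.H891.RH.Ext

/-! Estimates for the values of derivations at ramified places; determinants. -/

set_option autoImplicit false
set_option linter.overlappingInstances false
set_option linter.unusedSectionVars false

open FF IntermediateField Pool.Agent.W619.PQ Pool.Agent.W603.LV Pool.Agent.W619.Y

namespace Pool.Agent.H891.RH

section

variable {k K : Type} [Field k] [Field K] [Algebra k K]

/-- derivations which preserve the valuation ring and the maximal ideal are logarithmic -/
theorem log_of {v : Place k K} {D : Derivation k K K} (hD : Pres v D) {t : K} (ht : v.ord t = 1)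
    (hDt : Ge v 1 (D t)) (x : K) : Ge v 0 (D x / x) := by
  by_cases hx0 : x = 0
  · left
    rw [hx0, div_zero]
  have ht0 : t ≠ 0 := by
    rintro rfl
    rw [v.ord_zero] at ht
    exact zero_ne_one ht
  have hz : t ^ (-(v.ord x)) ≠ 0 := zpow_ne_zero _ ht0
  have hu : v.ord (x * t ^ (-(v.ord x))) = 0 := by
    rw [v.ord_mul hx0 hz, v.ord_zpow, ht]
    ring
  have h2 := der_unit hD hu
  rw [dlog_mul D hx0 hz, dlog_zpow D ht0] at h2
  have h3 : Ge v 0 (D t / t) := by
    have h4 : Ge v (-1) t⁻¹ := Or.inr (by rw [v.ord_inv, ht])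
    have h5 := hDt.mul h4
    rwa [show (1 : ℤ) + -1 = 0 by ring, ← div_eq_mul_inv] at h5
  have h4 : Ge v 0 (((-(v.ord x) : ℤ) : K) * (D t / t)) := by
    simpa using (Ge.intCast (P := v) (-(v.ord x))).mul h3
  have h5 := h2.sub h4
  rwa [add_sub_cancel_right] at h5

/-- determinants with rows and columns of given orders -/
theorem det_ge {R : Type*} [Fintype R] [DecidableEq R] {w : Place k K} {M : Matrix R R K}
    {α β : R → ℤ} (h : ∀ ρ ρ', Ge w (α ρ + β ρ') (M ρ ρ')) :
    Ge w (∑ ρ, α ρ + ∑ ρ, β ρ) M.det := by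
  rw [Matrix.det_apply]
  refine Ge.sum _ _ fun σ _ => ?_
  have h1 : Ge w (∑ ρ, (α (σ ρ) + β ρ)) (∏ ρ, M (σ ρ) ρ) := Ge.prod _ _ _ fun ρ _ => h _ _
  have h2 : ∑ ρ, (α (σ ρ) + β ρ) = ∑ ρ, α ρ + ∑ ρ, β ρ := by
    rw [Finset.sum_add_distrib, Equiv.sum_comp σ α]
  rw [h2] at h1
  rcases Int.units_eq_one_or (Equiv.Perm.sign σ) with h3 | h3
  · rw [h3, one_smul]
    exact h1
  · rw [h3, Units.neg_smul, one_smul]
    exact h1.neg

end

section

variable {k K L : Type} [Field k] [Field K] [Field L] [Algebra k K] [Algebra k L] [Algebra K L]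
  [IsScalarTower k K L] [CharZero k] [FiniteDimensional K L]

theorem ge_up {v : Place k K} {w : Place k L} {e : ℕ} (hov : Over w v e) {x : K} {b : ℤ}
    (hx : Ge v b x) : Ge w (e * b) (algebraMap K L x) := by
  rcases hx with rfl | hx
  · left
    rw [map_zero]
  · right
    rw [hov.2]
    exact mul_le_mul_of_nonneg_left hx (by positivity)

/-- the derivations of the frame which are logarithmic -/
theorem entry_log {v : Place k K} {w : Place k L} {e : ℕ} (hov : Over w v e)
    {D : Derivation k K K} (hD : Pres v D) {t : K} (ht : v.ord t = 1) (hDt : D t = 0)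
    {D' : Derivation k L L} (hD' : ∀ x : K, D' (algebraMap K L x) = algebraMap K L (D x))
    {z : L} {b : ℤ} (hz : Ge w b z) : Ge w b (D' z) := by
  have h1 : ∀ z : L, w.Reg (D' z / z) := pLOG k K L v w e hov D' fun x => by
    rw [hD', ← map_div₀]
    have h2 := ge_up hov (log_of hD ht (by rw [hDt]; exact Ge.zero) x)
    rw [mul_zero] at h2
    exact h2
  by_cases hz0 : z = 0
  · rw [hz0, map_zero]
    exact Ge.zero
  have h2 := hz.mul (show Ge w 0 (D' z / z) from h1 z)
  rwa [mul_div_cancel₀ _ hz0, add_zero] at h2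

/-- the derivation of the frame which is not logarithmic -/
theorem entry_not {v : Place k K} {w : Place k L} {e : ℕ} (hov : Over w v e)
    {D : Derivation k K K} (hD : Pres v D) {t : K} (ht : v.ord t = 1)
    {D' : Derivation k L L} (hD' : ∀ x : K, D' (algebraMap K L x) = algebraMap K L (D x))
    {z : L} {b : ℤ} (hb : 0 ≤ b) (hz : Ge w b z) : Ge w (b - e) (D' z) ∧ Ge w (1 - e) (D' z) := by
  have ht0 : t ≠ 0 := by
    rintro rfl
    rw [v.ord_zero] at ht
    exact zero_ne_one ht
  have htL0 : algebraMap K L t ≠ 0 := by simpa using ht0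
  have htL : w.ord (algebraMap K L t) = e := by rw [hov.2, ht, mul_one]
  let Λ₀ : Derivation k K K := t • D
  have hP : Pres v Λ₀ := by
    intro f hf
    show Ge v 0 (t * D f)
    have h1 : Ge v 0 t := Or.inr (by omega)
    simpa using h1.mul (show Ge v 0 (D f) from hD f hf)
  have hlog₀ : ∀ x : K, Ge v 0 (Λ₀ x / x) := log_of hP ht (by
    show Ge v 1 (t * D t)
    have h1 : Ge v 1 t := Or.inr (by omega)
    simpa using h1.mul (show Ge v 0 (D t) from hD t (Or.inr (by omega))))
  let Λ : Derivation k L L := algebraMap K L t • D'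
  have hΛ : ∀ x : K, Λ (algebraMap K L x) = algebraMap K L (Λ₀ x) := by
    intro x
    show algebraMap K L t * D' (algebraMap K L x) = algebraMap K L (t * D x)
    rw [hD', map_mul]
  have hlog : ∀ z : L, w.Reg (Λ z / z) := pLOG k K L v w e hov Λ fun x => by
    rw [hΛ, ← map_div₀]
    have h2 := ge_up hov (hlog₀ x)
    rw [mul_zero] at h2
    exact h2
  have hres : ∀ x : K, v.Reg x → Ge w 1 (Λ (algebraMap K L x)) := by
    intro x hx
    rw [hΛ]
    have h1 : Ge v 1 (Λ₀ x) := by
      show Ge v 1 (t * D x)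
      have h1 : Ge v 1 t := Or.inr (by omega)
      simpa using h1.mul (show Ge v 0 (D x) from hD x hx)
    have h2 := ge_up hov h1
    rw [mul_one] at h2
    have he := hov.1
    exact h2.mono (by omega)
  have hz0 : w.Reg z := hz.mono hb
  have h1 : Ge w 1 (Λ z) := res_der hov hlog hres hz0
  have h2 : Ge w b (Λ z) := by
    by_cases hz0 : z = 0
    · rw [hz0, map_zero]
      exact Ge.zero
    have h2 := hz.mul (show Ge w 0 (Λ z / z) from hlog z)
    rwa [mul_div_cancel₀ _ hz0, add_zero] at h2
  have h3 : ∀ {a : ℤ}, Ge w a (Λ z) → Ge w (a - e) (D' z) := by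
    intro a ha
    have h4 := Ge.of_mul htL0 (show Ge w a (algebraMap K L t * D' z) from ha)
    rwa [htL] at h4
  exact ⟨h3 h2, h3 h1⟩

end

end Pool.Agent.H891.RH
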