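import Pool.Agent.H891.RH.Entry
import Pool.Agent.H891.RH.Defs

/-! Local coordinates for multivalued maps. -/

set_option autoImplicit false
set_option linter.overlappingInstances false
set_option linter.unusedSectionVars false

open FF IntermediateField Pool.Agent.W619.PQ Pool.Agent.W619.PL Pool.Agent.W619.TW
  Pool.Agent.W603.LV Pool.Agent.W619.Y Pool.Agent.Y174 Pool.Agent.W824.PG

namespace Pool.Agent.H891.RH

section

variable {k L : Type} [Field k] [Field L] [Algebra k L]

/-- the conjugate of a derivation -/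
noncomputable def cd (τ : L ≃ₐ[k] L) (X : Derivation k L L) : Derivation k L L :=
  Derivation.mk' ((τ.symm.toLinearMap ∘ₗ X.toLinearMap) ∘ₗ τ.toLinearMap) (by
    intro a b
    show τ.symm (X (τ (a * b))) = a * τ.symm (X (τ b)) + b * τ.symm (X (τ a))
    rw [map_mul, Derivation.leibniz, map_add, smul_eq_mul, smul_eq_mul, map_mul, map_mul,
      τ.symm_apply_apply, τ.symm_apply_apply])

theorem cd_apply (τ : L ≃ₐ[k] L) (X : Derivation k L L) (z : L) :
    cd τ X z = τ.symm (X (τ z)) := rfl

theorem div_comp {w : Place k L} {n : ℕ} (hw : IsDivisorial w n) (τ : L ≃ₐ[k] L) :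
    IsDivisorial (w.comp τ) n := by
  obtain ⟨y, hy⟩ := hw
  refine ⟨fun i => τ.symm (y i), fun p hp => ?_⟩
  have h1 : MvPolynomial.aeval (fun i => τ.symm (y i)) p = τ.symm (MvPolynomial.aeval y p) := by
    have h2 := MvPolynomial.comp_aeval_apply (φ := τ.symm.toAlgHom) (f := y) (p := p)
    exact h2.symm
  rw [h1]
  refine ⟨fun h => (hy p hp).1 ((map_eq_zero_iff _ τ.symm.injective).1 h), ?_⟩
  rw [Place.comp_ord, τ.apply_symm_apply]
  exact (hy p hp).2

variable {K : Type} [Field K] [Algebra k K] [Algebra K L] [IsScalarTower k K L]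

theorem div_up {v : Place k K} {n : ℕ} (hv : IsDivisorial v n) {w : Place k L} {e : ℕ}
    (hov : Over w v e) : IsDivisorial w n := by
  obtain ⟨y, hy⟩ := hv
  refine ⟨fun i => algebraMap K L (y i), fun p hp => ?_⟩
  have h1 : MvPolynomial.aeval (fun i => algebraMap K L (y i)) p =
      algebraMap K L (MvPolynomial.aeval y p) := MvPolynomial.aeval_algebraMap_apply L y p
  rw [h1]
  refine ⟨fun h => (hy p hp).1 ((map_eq_zero_iff _ (algebraMap K L).injective).1 h), ?_⟩
  rw [hov.2, (hy p hp).2, mul_zero]

theorem over_comp {v : Place k K} {w : Place k L} {e : ℕ} (hov : Over w v e) (τ : L ≃ₐ[K] L) :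
    Over (w.comp (τ.restrictScalars k)) v e := by
  refine ⟨hov.1, fun f => ?_⟩
  rw [Place.comp_ord]
  show w.ord (τ (algebraMap K L f)) = _
  rw [τ.commutes, hov.2]

end

section

variable {k L : Type} [Field k] [Field L] [Algebra k L] [CharZero k]

/-- Local coordinates for a rational map at a place. -/
theorem local_frame (M : IntermediateField k L) [Algebra.EssFiniteType k M] {n y m : ℕ}
    (hn : Algebra.trdeg k L = n) (hy : Algebra.trdeg k M = y) (δM : Place k M → ℝ)
    {η : (Fin y → Derivation k M M) → M} (hη : PairSec k M y δM {1} m 0 η)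
    {t : Fin y → M} (ht : IsTranscendenceBasis k t) {F : Fin y → Derivation k M M}
    (hF : ∀ i j, F i (t j) = if i = j then 1 else 0) {w : Place k L} (hw : IsDivisorial w n) :
    ∃ (t' : Fin y → M) (F' : Fin y → Derivation k M M) (b : Fin y → ℕ) (a : ℝ),
      IsPullMult M δM w a ∧ IsTranscendenceBasis k t' ∧
      (∀ i j, F' i (t' j) = if i = j then 1 else 0) ∧
      (∀ l, Ge w (b l) (t' l : L)) ∧
      (η F' = 0 ∨ -(m * a) ≤ m * ((∑ l, (b l - 1) : ℕ) : ℝ) + w.ord (η F' : L)) := by
  classical
  by_cases htriv : ∀ z ∈ M, z ≠ 0 → w.ord z = 0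
  · refine ⟨t, F, fun _ => 0, 0, Or.inr ⟨htriv, rfl⟩, ht, hF, fun l => ?_, ?_⟩
    · by_cases h0 : (t l : L) = 0
      · exact Or.inl h0
      · right
        rw [htriv _ (t l).2 h0]
        rfl
    · by_cases h0 : η F = 0
      · exact Or.inl h0
      · right
        have h1 : w.ord (η F : L) = 0 := htriv _ (η F).2 fun h => h0 (Subtype.ext h)
        rw [h1]
        simp
  · push Not at htriv
    obtain ⟨z, hz, hz0, hzw⟩ := htriv
    obtain ⟨e, u, hu⟩ := exists_over (K := M) w ⟨⟨z, hz⟩, hzw⟩
    have hud : IsDivisorial u y := Pool.Agent.W619.Y.pDIVR k M L y n u w e hy hn hu hw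
    obtain ⟨t', F', i0, ht', hF', hti, htr, hpres⟩ := Pool.Agent.W619.Y.pFRAME k M y hy
      (fun y hy => fin_adj inferInstance y hy) u hud
    refine ⟨t', F', fun l => if l = i0 then e else 0, 1 - e * (1 - δM u),
      Or.inl ⟨u, e, hu, rfl⟩, ht', hF', fun l => ?_, ?_⟩
    · show Ge w ((if l = i0 then e else 0 : ℕ) : ℤ) (t' l : L)
      split_ifs with hl
      · right
        rw [hl]
        have h1 := hu.2 (t' i0)
        rw [hti, mul_one] at h1
        exact h1.ge
      · exact hu.reg.2 (htr l)
    · rcases hη.2 u hud F' (fun l f hf => hpres l f hf) with h | ⟨s, hs, hs0, h⟩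
      · exact Or.inl h
      · right
        rw [Finset.mem_singleton] at hs
        subst hs
        have h1 : (∑ l, ((if l = i0 then e else 0) - 1) : ℕ) = e - 1 := by
          rw [Finset.sum_eq_single i0]
          · rw [if_pos rfl]
          · intro l _ hl
            rw [if_neg hl]
            exact Nat.zero_sub 1
          · intro h
            exact (h (Finset.mem_univ _)).elim
        rw [h1]
        have h2 : w.ord (η F' : L) = e * u.ord (η F') := hu.2 _
        rw [h2]
        have he := hu.1
        have h3 : ((e - 1 : ℕ) : ℝ) = e - 1 := by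
          rw [Nat.cast_sub he, Nat.cast_one]
        rw [h3]
        push_cast
        have h4 : (0 : ℝ) - m * δM u ≤ u.ord (η F') := by
          simpa using h
        have h5 := mul_le_mul_of_nonneg_left h4 (Nat.cast_nonneg (α := ℝ) e)
        linarith

end

end Pool.Agent.H891.RH
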