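import Pool.Agent.H891.RH.Mat
import Pool.Agent.H891.RH.Local
import Pool.Agent.H891.RH.BlockD

/-! The local estimate. -/

set_option autoImplicit false
set_option linter.overlappingInstances false
set_option linter.unusedSectionVars false

open FF IntermediateField Pool.Agent.W619.PQ Pool.Agent.W619.PL Pool.Agent.W619.TW
  Pool.Agent.W603.LV Pool.Agent.W619.Y Pool.Agent.Y174 Pool.Agent.W824.PG

namespace Pool.Agent.H891.RH

section

variable {k K : Type} [Field k] [Field K] [Algebra k K] [CharZero k]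
  {L : IntermediateField K (AlgebraicClosure K)} {r n N D : ℕ} {c y : Fin r → ℕ}
  {Y : Fin r → IntermediateField k L}

/-- the matrix of the values of the vector fields `H` on the coordinates of the conjugates of the
maps -/
noncomputable def MM (X : Fin N → Cps L c D → k) (e : Row L c y D ≃ Fin n × Fin N)
    (t : ∀ q : Fin r × (L ≃ₐ[K] L), Fin (y q.1) → Y q.1) (H : Fin n → Derivation k L L) :
    Matrix (Row L c y D) (Row L c y D) L :=
  Matrix.of fun ρ ρ' => algebraMap k L (X (e ρ').2 ρ.1) *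
    H (e ρ').1 (ρ.1.1.2 (t ρ.1.1 ρ.2 : L))

/-- the matrix of the change of coordinates -/
noncomputable def PM {q : Fin r × (L ≃ₐ[K] L)} (t : Fin (y q.1) → Y q.1)
    (F' : Fin (y q.1) → Derivation k (Y q.1) (Y q.1)) :
    Matrix (Fin (y q.1)) (Fin (y q.1)) (Y q.1) :=
  Matrix.of fun c b => F' c (t b)

variable [FiniteDimensional K L]

theorem chain' (q : Fin r × (L ≃ₐ[K] L)) {t' : Fin (y q.1) → Y q.1}
    (ht' : IsTranscendenceBasis k t') {F' : Fin (y q.1) → Derivation k (Y q.1) (Y q.1)}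
    (hF' : ∀ i j, F' i (t' j) = if i = j then 1 else 0) (H : Derivation k L L) (z : Y q.1) :
    H (q.2 (z : L)) = ∑ l, q.2 (F' l z : L) * H (q.2 (t' l : L)) := by
  let τ : L ≃ₐ[k] L := q.2.restrictScalars k
  have hτ : ∀ x : L, τ x = q.2 x := fun _ => rfl
  have h1 := Pool.Agent.W73.PG.PULL.chain t' ht' F' hF' (cd τ H) z
  have h2 := congrArg τ h1
  rw [map_sum] at h2
  have h3 : ∀ x : Y q.1, τ (cd τ H (algebraMap (Y q.1) L x)) = H (q.2 (x : L)) := by
    intro x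
    rw [cd_apply, τ.apply_symm_apply]
    rfl
  rw [h3] at h2
  rw [h2]
  refine Finset.sum_congr rfl fun l _ => ?_
  rw [map_mul, h3, mul_comm]
  rfl

open scoped Matrix

open scoped Classical in
theorem det_change (X : Fin N → Cps L c D → k) (e : Row L c y D ≃ Fin n × Fin N)
    (t t' : ∀ q : Fin r × (L ≃ₐ[K] L), Fin (y q.1) → Y q.1)
    (ht' : ∀ q, IsTranscendenceBasis k (t' q))
    (F' : ∀ q : Fin r × (L ≃ₐ[K] L), Fin (y q.1) → Derivation k (Y q.1) (Y q.1))
    (hF' : ∀ q i j, F' q i (t' q j) = if i = j then 1 else 0) (H : Fin n → Derivation k L L) :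
    (MM X e t H).det = (∏ q : Fin r × (L ≃ₐ[K] L),
      q.2 ((PM (q := q) (t q) (F' q)).det : L) ^ (D * c q.1)) * (MM X e t' H).det := by
  let P : ∀ a : Cps L c D, Matrix (Fin (y a.1.1)) (Fin (y a.1.1)) L := fun a =>
    Matrix.of fun l l' => a.1.2 (F' a.1 l' (t a.1 l) : L)
  have h1 : MM X e t H = Matrix.blockDiagonal' P * MM X e t' H := by
    refine Matrix.ext fun ρ ρ' => ?_
    rw [Matrix.mul_apply, Fintype.sum_sigma]
    rw [Finset.sum_eq_single ρ.1]
    · obtain ⟨a, l⟩ := ρ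
      show algebraMap k L (X (e ρ').2 a) * H (e ρ').1 (a.1.2 (t a.1 l : L)) = _
      rw [chain' a.1 (ht' a.1) (hF' a.1), Finset.mul_sum]
      refine Finset.sum_congr rfl fun l' _ => ?_
      rw [Matrix.blockDiagonal'_apply_eq]
      show _ = a.1.2 (F' a.1 l' (t a.1 l) : L) * (algebraMap k L (X (e ρ').2 a) *
        H (e ρ').1 (a.1.2 (t' a.1 l' : L)))
      ring
    · intro a _ ha
      refine Finset.sum_eq_zero fun l' _ => ?_
      obtain ⟨a', l⟩ := ρ
      rw [Matrix.blockDiagonal'_apply_ne P l l' (Ne.symm ha), zero_mul]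
    · intro h
      exact (h (Finset.mem_univ _)).elim
  rw [h1, Matrix.det_mul, det_bd]
  congr 1
  rw [Fintype.prod_sigma]
  refine Finset.prod_congr rfl fun q _ => ?_
  have h2 : ∀ x : Fin (D * c q.1), (P ⟨q, x⟩).det = q.2 ((PM (q := q) (t q) (F' q)).det : L) := by
    intro x
    have h3 : P ⟨q, x⟩ = ((q.2.toRingEquiv.toRingHom.comp
        (algebraMap (Y q.1) L)).mapMatrix (PM (q := q) (t q) (F' q)))ᵀ := by
      refine Matrix.ext fun l l' => ?_
      rfl
    rw [h3, Matrix.det_transpose, ← RingHom.map_det]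
    rfl
  simp only [h2]
  rw [Finset.prod_const, Finset.card_univ, Fintype.card_fin]

theorem form_PM {q : Fin r × (L ≃ₐ[K] L)} {m : ℕ}
    {η : (Fin (y q.1) → Derivation k (Y q.1) (Y q.1)) → Y q.1}
    (hη : IsPluriForm k (Y q.1) (y q.1) m η)
    {t : Fin (y q.1) → Y q.1} (ht : IsTranscendenceBasis k t)
    {F : Fin (y q.1) → Derivation k (Y q.1) (Y q.1)} (hF : ∀ i j, F i (t j) = if i = j then 1 else 0)
    (F' : Fin (y q.1) → Derivation k (Y q.1) (Y q.1)) :
    η F' = (PM (q := q) t F').det ^ m * η F := by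
  have h1 : η (fun i => ∑ j, PM (q := q) t F' i j • F j) = (PM (q := q) t F').det ^ m * η F :=
    hη _ _
  have h2 : (fun i => ∑ j, PM (q := q) t F' i j • F j) = F' := by
    funext i
    exact Pool.Agent.W73.PG.PULL.expand t ht F hF (F' i)
  rwa [h2] at h1

variable [IsGalois K L]

open scoped Classical in
/-- **The local estimate.** -/
theorem local_est (hn : Algebra.trdeg k K = n) [∀ j, Algebra.EssFiniteType k (Y j)]
    (hy : ∀ j, Algebra.trdeg k (Y j) = y j) {δ : Place k K → ℝ} {δY : ∀ j, Place k (Y j) → ℝ}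
    {d' : ℕ} (hram : RamBound n L δ Y δY c d') (hN : N = d' * Nat.card (L ≃ₐ[K] L) * D)
    (X : Fin N → Cps L c D → k) (e : Row L c y D ≃ Fin n × Fin N)
    {t : ∀ j, Fin (y j) → Y j} (ht : ∀ j, IsTranscendenceBasis k (t j))
    {F : ∀ j, Fin (y j) → Derivation k (Y j) (Y j)}
    (hF : ∀ j l l', F j l (t j l') = if l = l' then 1 else 0) {T : ℕ}
    {η : ∀ j, (Fin (y j) → Derivation k (Y j) (Y j)) → Y j}
    (hη : ∀ j, PairSec k (Y j) (y j) (δY j) {1} (T * (D * c j)) 0 (η j))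
    {v : Place k K} (hv : IsDivisorial v n) {w : Place k L} {a₀ : ℕ} (hov : Over w v a₀)
    {z₀ : Fin n → K} {E : Fin n → Derivation k K K} {i0 : Fin n}
    (hE : ∀ i j, E i (z₀ j) = if i = j then 1 else 0) (hz : v.ord (z₀ i0) = 1)
    (hpres : ∀ i, Pres v (E i)) {H : Fin n → Derivation k L L}
    (hH : ∀ i (x : K), H i (algebraMap K L x) = algebraMap K L (E i x)) :
    (MM X e (fun q => t q.1) H).det ^ T * ∏ q : Fin r × (L ≃ₐ[K] L), q.2 (η q.1 (F q.1) : L) = 0 ∨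
      -(T * N * a₀ * δ v) ≤ w.ord ((MM X e (fun q => t q.1) H).det ^ T *
        ∏ q : Fin r × (L ≃ₐ[K] L), q.2 (η q.1 (F q.1) : L)) := by
  have hnL : Algebra.trdeg k L = n := by
    have h1 := trdeg_add_eq k K (A := L)
    rw [hn, trdeg_eq_zero (R := K), add_zero] at h1
    exact h1.symm
  have hw : IsDivisorial w n := div_up hv hov
  -- the local frames
  choose t' F' b a hmul ht' hF' hb hη' using fun q : Fin r × (L ≃ₐ[K] L) =>
    local_frame (Y q.1) hnL (hy q.1) (δY q.1) (hη q.1) (ht q.1) (hF q.1)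
      (div_comp hw (q.2.restrictScalars k))
  have hV : (MM X e (fun q => t q.1) H).det ^ T *
      ∏ q : Fin r × (L ≃ₐ[K] L), q.2 (η q.1 (F q.1) : L) =
      (MM X e t' H).det ^ T * ∏ q : Fin r × (L ≃ₐ[K] L), q.2 (η q.1 (F' q) : L) := by
    rw [det_change X e (fun q => t q.1) t' ht' F' hF' H, mul_pow, ← Finset.prod_pow]
    rw [mul_comm (∏ q, _) ((MM X e t' H).det ^ T), mul_assoc, ← Finset.prod_mul_distrib]
    congr 1
    refine Finset.prod_congr rfl fun q _ => ?_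
    rw [form_PM (q := q) (hη q.1).1 (ht q.1) (hF q.1) (F' q), ← pow_mul, mul_comm (D * c q.1) T]
    show _ = q.2 (algebraMap (Y q.1) L ((PM (q := q) (t q.1) (F' q)).det ^ (T * (D * c q.1)) *
      η q.1 (F q.1)))
    rw [map_mul, map_mul, map_pow, map_pow]
    rfl
  rw [hV]
  by_cases h0 : (MM X e t' H).det ^ T * ∏ q : Fin r × (L ≃ₐ[K] L), q.2 (η q.1 (F' q) : L) = 0
  · exact Or.inl h0
  right
  have h01 : (MM X e t' H).det ^ T ≠ 0 := left_ne_zero_of_mul h0
  have h02 : ∏ q : Fin r × (L ≃ₐ[K] L), q.2 (η q.1 (F' q) : L) ≠ 0 := right_ne_zero_of_mul h0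
  have h03 : ∀ q : Fin r × (L ≃ₐ[K] L), q.2 (η q.1 (F' q) : L) ≠ 0 := fun q =>
    Finset.prod_ne_zero_iff.1 h02 q (Finset.mem_univ _)
  -- the determinant
  let α : Row L c y D → ℤ := fun ρ => ((b ρ.1.1 ρ.2 - 1 : ℕ) : ℤ)
  let β : Row L c y D → ℤ := fun ρ' => if (e ρ').1 = i0 then 1 - (a₀ : ℤ) else 0
  have hent : ∀ ρ ρ', Ge w (α ρ + β ρ') (MM X e t' H ρ ρ') := by
    intro ρ ρ'
    have hx : Ge w 0 (algebraMap k L (X (e ρ').2 ρ.1)) := Ge.const _
    have hz0 : Ge w (b ρ.1.1 ρ.2) (ρ.1.1.2 (t' ρ.1.1 ρ.2 : L)) := by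
      rcases hb ρ.1.1 ρ.2 with h | h
      · left
        rw [h, map_zero]
      · right
        exact h
    have key : Ge w (α ρ + β ρ') (H (e ρ').1 (ρ.1.1.2 (t' ρ.1.1 ρ.2 : L))) := by
      by_cases hi : (e ρ').1 = i0
      · have h1 := entry_not hov (hpres (e ρ').1) hz (hH (e ρ').1)
          (Nat.cast_nonneg (b ρ.1.1 ρ.2)) hz0
        show Ge w (((b ρ.1.1 ρ.2 - 1 : ℕ) : ℤ) + if (e ρ').1 = i0 then 1 - (a₀ : ℤ) else 0) _
        rw [if_pos hi]
        rcases Nat.eq_zero_or_pos (b ρ.1.1 ρ.2) with hb0 | hb0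
        · rw [hb0]
          exact h1.2.mono (by simp)
        · exact h1.1.mono (by
            rw [Nat.cast_sub hb0]
            push_cast
            omega)
      · have h1 := entry_log hov (hpres (e ρ').1) hz (by
          rw [hE, if_neg hi]) (hH (e ρ').1) hz0
        show Ge w (((b ρ.1.1 ρ.2 - 1 : ℕ) : ℤ) + if (e ρ').1 = i0 then 1 - (a₀ : ℤ) else 0) _
        rw [if_neg hi]
        exact h1.mono (by omega)
    have h1 := hx.mul key
    rw [zero_add] at h1
    exact h1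
  have hdet := det_ge hent
  have hdet0 : (MM X e t' H).det ≠ 0 ∨ T = 0 := by
    by_contra hcon
    push Not at hcon
    exact h01 (by rw [hcon.1, zero_pow hcon.2])
  let A : (Fin r × (L ≃ₐ[K] L)) → ℝ := fun q => ((∑ l, (b q l - 1) : ℕ) : ℝ)
  have hα : ((∑ ρ, α ρ : ℤ) : ℝ) = ∑ q : Fin r × (L ≃ₐ[K] L), (D * c q.1 : ℕ) * A q := by
    rw [Fintype.sum_sigma, Fintype.sum_sigma]
    push_cast
    refine Finset.sum_congr rfl fun q _ => ?_
    show ∑ _x : Fin (D * c q.1), ∑ l : Fin (y q.1), ((((b q l - 1 : ℕ) : ℤ)) : ℝ) = _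
    rw [Finset.sum_const, Finset.card_univ, Fintype.card_fin, nsmul_eq_mul]
    show _ = _ * ((∑ l, (b q l - 1) : ℕ) : ℝ)
    push_cast
    rfl
  have hβ : ((∑ ρ, β ρ : ℤ) : ℝ) = N * (1 - (a₀ : ℝ)) := by
    have h1 : ∑ ρ, β ρ = ∑ γ : Fin n × Fin N, if γ.1 = i0 then 1 - (a₀ : ℤ) else 0 :=
      Equiv.sum_comp e fun γ : Fin n × Fin N => if γ.1 = i0 then 1 - (a₀ : ℤ) else 0
    rw [h1, Fintype.sum_prod_type, Finset.sum_eq_single i0]
    · simp
      ring
    · intro i _ hi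
      exact Finset.sum_eq_zero fun _ _ => if_neg hi
    · intro h
      exact (h (Finset.mem_univ _)).elim
  have hdet' : T * (∑ q : Fin r × (L ≃ₐ[K] L), (D * c q.1 : ℕ) * A q + N * (1 - (a₀ : ℝ))) ≤
      (w.ord ((MM X e t' H).det ^ T) : ℝ) := by
    rw [w.ord_pow]
    rcases hdet0 with h | h
    · have h1 := hdet.resolve_left h
      have h2 : ((∑ ρ, α ρ + ∑ ρ, β ρ : ℤ) : ℝ) ≤ (w.ord (MM X e t' H).det : ℝ) := by
        exact_mod_cast h1
      rw [Int.cast_add, hα, hβ] at h2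
      push_cast at h2 ⊢
      exact mul_le_mul_of_nonneg_left h2 (Nat.cast_nonneg T)
    · rw [h]
      simp
  -- the sections
  have hsec : ∀ q : Fin r × (L ≃ₐ[K] L), -((T * (D * c q.1) : ℕ) * a q) -
      (T * (D * c q.1) : ℕ) * A q ≤ (w.ord (q.2 (η q.1 (F' q) : L)) : ℝ) := by
    intro q
    have h1 := (hη' q).resolve_left fun h => h03 q (by
      rw [h]
      exact map_zero q.2)
    have h2 : (w.comp (q.2.restrictScalars k)).ord (η q.1 (F' q) : L) =
        w.ord (q.2 (η q.1 (F' q) : L)) := rfl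
    rw [h2] at h1
    show _ - _ * ((∑ l, (b q l - 1) : ℕ) : ℝ) ≤ _
    linarith
  have hsum : (w.ord (∏ q : Fin r × (L ≃ₐ[K] L), q.2 (η q.1 (F' q) : L)) : ℝ) =
      ∑ q : Fin r × (L ≃ₐ[K] L), (w.ord (q.2 (η q.1 (F' q) : L)) : ℝ) := by
    rw [Pool.Agent.H891.BL.ord_prod' w _ fun q _ => h03 q]
    push_cast
    rfl
  rw [w.ord_mul h01 h02]
  push_cast
  rw [hsum]
  have h1 := Finset.sum_le_sum fun (q : Fin r × (L ≃ₐ[K] L)) (_ : q ∈ Finset.univ) => hsec q
  -- the ramification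
  have h2 : ∀ σ : L ≃ₐ[K] L, ∑ j, (c j : ℝ) * a (j, σ) ≤ d' * (1 - a₀ * (1 - δ v)) := by
    intro σ
    exact hram (w.comp (σ.restrictScalars k)) v a₀ (div_comp hw _) (over_comp hov σ) _
      fun j => hmul (j, σ)
  have h3 : ∑ q : Fin r × (L ≃ₐ[K] L), ((T * (D * c q.1) : ℕ) : ℝ) * a q ≤
      T * N * (1 - a₀ * (1 - δ v)) := by
    have h4 : ∑ q : Fin r × (L ≃ₐ[K] L), ((T * (D * c q.1) : ℕ) : ℝ) * a q =
        T * D * ∑ σ : L ≃ₐ[K] L, ∑ j, (c j : ℝ) * a (j, σ) := by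
      rw [Fintype.sum_prod_type, Finset.sum_comm, Finset.mul_sum]
      refine Finset.sum_congr rfl fun σ _ => ?_
      rw [Finset.mul_sum]
      refine Finset.sum_congr rfl fun j _ => ?_
      push_cast
      ring
    rw [h4]
    have h5 : ∑ σ : L ≃ₐ[K] L, ∑ j, (c j : ℝ) * a (j, σ) ≤
        ∑ _σ : L ≃ₐ[K] L, (d' : ℝ) * (1 - a₀ * (1 - δ v)) := Finset.sum_le_sum fun σ _ => h2 σ
    rw [Finset.sum_const, Finset.card_univ, nsmul_eq_mul, ← Nat.card_eq_fintype_card] at h5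
    have h6 := mul_le_mul_of_nonneg_left h5
      (mul_nonneg (Nat.cast_nonneg (α := ℝ) T) (Nat.cast_nonneg (α := ℝ) D))
    refine h6.trans (le_of_eq ?_)
    rw [hN]
    push_cast
    ring
  have h4 : ∑ q : Fin r × (L ≃ₐ[K] L), (-(((T * (D * c q.1) : ℕ) : ℝ) * a q) -
      ((T * (D * c q.1) : ℕ) : ℝ) * A q) = -∑ q : Fin r × (L ≃ₐ[K] L),
        ((T * (D * c q.1) : ℕ) : ℝ) * a q - T * ∑ q : Fin r × (L ≃ₐ[K] L),
          ((D * c q.1 : ℕ) : ℝ) * A q := by
    rw [Finset.mul_sum, ← Finset.sum_neg_distrib, ← Finset.sum_sub_distrib]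
    refine Finset.sum_congr rfl fun q _ => ?_
    push_cast
    ring
  rw [h4] at h1
  linarith [h1, h3, hdet']

end

end Pool.Agent.H891.RH
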