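import Pool.Graph.R_seed8.W619.Y.Parts
import Pool.Graph.R_seed8.W619.PQ.Ram
import Pool.Graph.R_seed8.Y174.B5

/-! Places over places; derivations at ramified places. -/

set_option autoImplicit false
set_option linter.overlappingInstances false
set_option linter.unusedSectionVars false

open Polynomial FF IsDedekindDomain IntermediateField Pool.Agent.W619.PQ Pool.Agent.W603.LV
  Pool.Agent.W619.Y

namespace Pool.Agent.H891.RH

section

variable {k K L : Type} [Field k] [Field K] [Field L] [Algebra k K] [Algebra k L] [Algebra K L]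
  [IsScalarTower k K L] [CharZero k] [FiniteDimensional K L]

/-- Places extend. -/
theorem exists_ext (v : Place k K) : ∃ (w : Place k L) (e : ℕ), Over w v e := by
  classical
  let iA : Algebra v.O L := ((algebraMap K L).comp v.O.subtype).toAlgebra
  let ik : Algebra k v.O := algk v
  obtain ⟨t, ht0, ht⟩ := v.surj
  have htr : v.Reg t := Or.inr (by omega)
  have htF : algebraMap K L t ≠ 0 := by simpa using ht0
  have : IsDiscreteValuationRing v.O := v.isDVR
  have : CharZero K := charZero_of_injective_algebraMap (algebraMap k K).injective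
  have : IsScalarTower v.O K L := IsScalarTower.of_algebraMap_eq fun _ => rfl
  have : IsScalarTower k v.O L := IsScalarTower.of_algebraMap_eq fun c => by
    rw [IsScalarTower.algebraMap_apply k K L]
    rfl
  let B := integralClosure v.O L
  have : IsDedekindDomain B := integralClosure.isDedekindDomain v.O K L
  have : IsFractionRing B L := integralClosure.isFractionRing_of_finite_extension K L
  have hinj : Function.Injective (algebraMap v.O L) := by
    rw [IsScalarTower.algebraMap_eq v.O K L]
    exact (algebraMap K L).injective.comp (IsFractionRing.injective v.O K)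
  have hinj' : Function.Injective (algebraMap v.O B) := by
    intro a b h
    apply hinj
    rw [IsScalarTower.algebraMap_apply v.O B L, IsScalarTower.algebraMap_apply v.O B L, h]
  have htf : Module.IsTorsionFree v.O B := Module.isTorsionFree_iff_algebraMap_injective.2 hinj'
  have hsc : IsScalarTower k B L := by
    refine IsScalarTower.of_algebraMap_eq fun c => ?_
    rw [IsScalarTower.algebraMap_apply k v.O B, ← IsScalarTower.algebraMap_apply v.O B L,
      ← IsScalarTower.algebraMap_apply k v.O L]
  let p := IsLocalRing.maximalIdeal v.O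
  have hp0 : p ≠ ⊥ := IsDiscreteValuationRing.not_a_field v.O
  obtain ⟨P, hPmax, hPl⟩ := Ideal.exists_maximal_ideal_liesOver_of_isIntegral (S := B) p
  have hP0 : P ≠ ⊥ := Ideal.ne_bot_of_liesOver_of_ne_bot hp0 P
  let P' : HeightOneSpectrum B := ⟨P, hPmax.isPrime, hP0⟩
  let w : Place k L := placeOf P'
  have h1 : ∀ f : K, v.Reg f → w.Reg (algebraMap K L f) := by
    intro f hf
    have := placeOf_reg (k := k) (L := L) P' (algebraMap v.O B ⟨f, hf⟩)
    rwa [← IsScalarTower.algebraMap_apply v.O B L] at this
  have htp : (⟨t, htr⟩ : v.O) ∈ p := (mem_maximalIdeal_iff v _).2 (Or.inr ht.ge)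
  have h2 : 0 < w.ord (algebraMap K L t) := by
    have h3 : w.red (algebraMap B L (algebraMap v.O B ⟨t, htr⟩)) = 0 := by
      rw [placeOf_red_eq_zero]
      have : (⟨t, htr⟩ : v.O) ∈ P.comap (algebraMap v.O B) := by
        rw [← Ideal.under_def, ← hPl.over]
        exact htp
      exact this
    rw [Place.red_eq_zero_iff _ (placeOf_reg _ _), ← IsScalarTower.algebraMap_apply v.O B L] at h3
    exact h3.resolve_left htF
  exact ⟨w, _, over_of_reg w v t ht0 ht h1 h2⟩

/-- The residue field extension is algebraic. -/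
theorem res_alg {v : Place k K} {w : Place k L} {e : ℕ} (hov : Over w v e) (c : w.RF) :
    ∃ Q : Polynomial v.RF, Q ≠ 0 ∧ Q.eval₂ hov.resMap.toRingHom c = 0 := by
  obtain ⟨f, hf, rfl⟩ := w.red_surjective c
  obtain ⟨p, hp0, hp⟩ := (Algebra.IsAlgebraic.isAlgebraic (R := K) f)
  obtain ⟨j, hj, hmin⟩ := Finset.exists_min_image p.support (fun i => v.ord (p.coeff i))
    (Polynomial.support_nonempty.2 hp0)
  have hj0 : p.coeff j ≠ 0 := Polynomial.mem_support_iff.1 hj
  have hq : ∀ i, v.Reg (p.coeff i / p.coeff j) := by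
    intro i
    by_cases hi : p.coeff i = 0
    · rw [hi, zero_div]; exact v.reg_zero
    · right
      rw [v.ord_div hi hj0]
      have := hmin i (Polynomial.mem_support_iff.2 hi)
      linarith
  let Q : Polynomial v.RF :=
    ∑ i ∈ Finset.range (p.natDegree + 1), Polynomial.monomial i (v.red (p.coeff i / p.coeff j))
  refine ⟨Q, ?_, ?_⟩
  · intro hQ
    have h1 : Q.coeff j = 1 := by
      simp only [Q, Polynomial.finsetSum_coeff, Polynomial.coeff_monomial]
      rw [Finset.sum_ite_eq' (Finset.range (p.natDegree + 1)) j]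
      rw [if_pos (Finset.mem_range.2 (Nat.lt_succ_of_le (Polynomial.le_natDegree_of_ne_zero hj0))),
        div_self hj0, v.red_one]
    rw [hQ] at h1
    simp at h1
  · have h2 : Q.eval₂ hov.resMap.toRingHom (w.red f) = ∑ i ∈ Finset.range (p.natDegree + 1),
        w.red (algebraMap K L (p.coeff i / p.coeff j) * f ^ i) := by
      simp only [Q, Polynomial.eval₂_finsetSum, Polynomial.eval₂_monomial]
      refine Finset.sum_congr rfl fun i _ => ?_
      show hov.resMap _ * _ = _
      rw [hov.resMap_red (hq i), w.red_mul (hov.reg.2 (hq i))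
        (Pool.Agent.W828.PG.reg_pow w hf i), w.red_pow hf]
    have h3 := Pool.Agent.W828.PG.red_sum w (Finset.range (p.natDegree + 1))
      (fun i => algebraMap K L (p.coeff i / p.coeff j) * f ^ i)
      (fun i _ => w.reg_mul (hov.reg.2 (hq i)) (Pool.Agent.W828.PG.reg_pow w hf i))
    rw [h2, ← h3.2]
    have h4 : ∑ i ∈ Finset.range (p.natDegree + 1),
        algebraMap K L (p.coeff i / p.coeff j) * f ^ i = 0 := by
      have h5 : ∑ i ∈ Finset.range (p.natDegree + 1),
          algebraMap K L (p.coeff i / p.coeff j) * f ^ i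
          = (algebraMap K L (p.coeff j))⁻¹ * Polynomial.aeval f p := by
        rw [Polynomial.aeval_eq_sum_range, Finset.mul_sum]
        refine Finset.sum_congr rfl fun i _ => ?_
        rw [map_div₀, Algebra.smul_def]
        ring
      rw [h5, hp, mul_zero]
    rw [h4, w.red_zero]

/-- A logarithmic derivation which is trivial on the residue field downstairs is trivial on the
residue field upstairs. -/
theorem res_der {v : Place k K} {w : Place k L} {e : ℕ} (hov : Over w v e)
    {Λ : Derivation k L L} (hlog : ∀ z : L, w.Reg (Λ z / z))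
    (hres : ∀ x : K, v.Reg x → Ge w 1 (Λ (algebraMap K L x))) {z : L} (hz : w.Reg z) :
    Ge w 1 (Λ z) := by
  classical
  let _ : Algebra v.RF w.RF := hov.resMap.toRingHom.toAlgebra
  have hmap : ∀ a : v.RF, algebraMap v.RF w.RF a = hov.resMap a := fun a => rfl
  have hc0 : CharZero v.RF := charZero_of_injective_algebraMap (algebraMap k v.RF).injective
  have hlog' : ∀ u : L, Ge w 1 u → Ge w 1 (Λ u) := by
    intro u hu
    by_cases hu0 : u = 0
    · rw [hu0, map_zero]
      exact Ge.zero
    have h1 : Ge w 0 (Λ u / u) := hlog u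
    have h2 := hu.mul h1
    rwa [mul_div_cancel₀ _ hu0, add_zero] at h2
  have halg : IsAlgebraic v.RF (w.red z) := by
    obtain ⟨Q, hQ0, hQ⟩ := res_alg hov (w.red z)
    exact ⟨Q, hQ0, hQ⟩
  have hint : IsIntegral v.RF (w.red z) := halg.isIntegral
  have hsep : (minpoly v.RF (w.red z)).Separable := (minpoly.irreducible hint).separable
  have hd0 : Polynomial.aeval (w.red z) (Polynomial.derivative (minpoly v.RF (w.red z))) ≠ 0 :=
    hsep.aeval_derivative_ne_zero (minpoly.aeval _ _)
  -- lift the polynomial
  choose a ha1 ha2 using fun i => v.red_surjective ((minpoly v.RF (w.red z)).coeff i)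
  set N := (minpoly v.RF (w.red z)).natDegree + 1 with hN
  let u : L := ∑ i ∈ Finset.range N, algebraMap K L (a i) * z ^ i
  have hu : Ge w 1 u := by
    have h3 := Pool.Agent.W828.PG.red_sum w (Finset.range N)
      (fun i => algebraMap K L (a i) * z ^ i)
      (fun i _ => w.reg_mul (hov.reg.2 (ha1 i)) (Pool.Agent.W828.PG.reg_pow w hz i))
    have h4 : w.red u = 0 := by
      rw [h3.2]
      have h5 := minpoly.aeval v.RF (w.red z)
      rw [Polynomial.aeval_eq_sum_range] at h5
      rw [← h5]
      refine Finset.sum_congr rfl fun i _ => ?_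
      rw [w.red_mul (hov.reg.2 (ha1 i)) (Pool.Agent.W828.PG.reg_pow w hz i), w.red_pow hz,
        ← hov.resMap_red (ha1 i), ha2, Algebra.smul_def]
      rfl
    rcases (w.red_eq_zero_iff h3.1).1 h4 with h | h
    · exact Or.inl h
    · exact Or.inr h
  let u' : L := ∑ i ∈ Finset.range N, algebraMap K L (a i) * ((i : L) * z ^ (i - 1))
  have hreg' : ∀ i : ℕ, w.Reg ((i : L) * z ^ (i - 1)) := fun i =>
    w.reg_mul (Ge.natCast i) (Pool.Agent.W828.PG.reg_pow w hz _)
  have hredn : ∀ i : ℕ, w.red (i : L) = (i : w.RF) := by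
    intro i
    have h1 := w.algebraMap_RF (i : k)
    rw [map_natCast, map_natCast] at h1
    exact h1.symm
  have hu' : w.red u' ≠ 0 ∧ w.Reg u' := by
    have h3 := Pool.Agent.W828.PG.red_sum w (Finset.range N)
      (fun i => algebraMap K L (a i) * ((i : L) * z ^ (i - 1)))
      (fun i _ => w.reg_mul (hov.reg.2 (ha1 i)) (hreg' i))
    refine ⟨?_, h3.1⟩
    rw [h3.2]
    intro h0
    apply hd0
    have h5 : Polynomial.derivative (minpoly v.RF (w.red z)) = ∑ i ∈ Finset.range N,
        Polynomial.monomial (i - 1) ((minpoly v.RF (w.red z)).coeff i * (i : v.RF)) := by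
      conv_lhs => rw [Polynomial.as_sum_range (minpoly v.RF (w.red z))]
      rw [Polynomial.derivative_sum]
      exact Finset.sum_congr rfl fun i _ => Polynomial.derivative_monomial _ _
    rw [h5, map_sum]
    refine Eq.trans ?_ h0
    refine Finset.sum_congr rfl fun i _ => ?_
    rw [w.red_mul (hov.reg.2 (ha1 i)) (hreg' i), w.red_mul (Ge.natCast i)
      (Pool.Agent.W828.PG.reg_pow w hz _), w.red_pow hz, hredn, ← hov.resMap_red (ha1 i), ha2,
      Polynomial.aeval_monomial, map_mul, map_natCast]
    show hov.resMap _ * _ * _ = _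
    ring
  -- differentiate
  have h1 : Λ u = ∑ i ∈ Finset.range N, z ^ i * Λ (algebraMap K L (a i)) + u' * Λ z := by
    show Λ (∑ i ∈ Finset.range N, algebraMap K L (a i) * z ^ i) = _
    rw [map_sum, Finset.sum_mul, ← Finset.sum_add_distrib]
    refine Finset.sum_congr rfl fun i _ => ?_
    rw [Λ.leibniz, Λ.leibniz_pow]
    simp only [smul_eq_mul, nsmul_eq_mul]
    ring
  have h2 : Ge w 1 (∑ i ∈ Finset.range N, z ^ i * Λ (algebraMap K L (a i))) := by
    refine Ge.sum _ _ fun i _ => ?_
    have h3 : Ge w 0 (z ^ i) := Pool.Agent.W828.PG.reg_pow w hz i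
    have h4 := h3.mul (hres (a i) (ha1 i))
    rwa [zero_add] at h4
  have h3 : Ge w 1 (u' * Λ z) := by
    have h4 := (hlog' u hu).sub h2
    rwa [h1, add_sub_cancel_left] at h4
  have h4 : u' ≠ 0 := by
    intro h
    apply hu'.1
    rw [h, w.red_zero]
  have h5 : w.ord u' = 0 := by
    have h6 := (w.reg_iff h4).1 hu'.2
    have h7 : ¬ 0 < w.ord u' := fun h => hu'.1 ((w.red_eq_zero_iff hu'.2).2 (Or.inr h))
    omega
  exact Ge.of_mul' h4 h5 (by rwa [add_zero])

end

end Pool.Agent.H891.RH
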