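import Pool.Agent.H891.RH.Cond

/-! The matrices given by the certificates. -/

set_option autoImplicit false
set_option linter.overlappingInstances false
set_option linter.unusedSectionVars false

open FF IntermediateField Algebra Pool.Agent.W619.PQ Pool.Agent.W619.PL Pool.Agent.W619.TW
  Pool.Agent.W603.LV Pool.Agent.W619.Y Pool.Agent.Y174 Pool.Agent.Y173.QA Pool.Agent.H891.KS
  Pool.Agent.H891.TY Pool.Agent.H891.RF Pool.Agent.H891.BL

open scoped Matrix

namespace Pool.Agent.H891.RH

/-- A determinant with coefficients in an infinite subfield. -/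
theorem choose_det {k Ω R B Q : Type*} [Field k] [Infinite k] [Field Ω] [Algebra k Ω] [Fintype R]
    [DecidableEq R] (β : R → B) (κ : R → Q) (m : R → R → Ω) (X : B → Q → Ω)
    (h : (Matrix.of fun ρ ρ' => X (β ρ') (κ ρ) * m ρ ρ').det ≠ 0) :
    ∃ X : B → Q → k, (Matrix.of fun ρ ρ' => algebraMap k Ω (X (β ρ') (κ ρ)) * m ρ ρ').det ≠ 0 := by
  classical
  let P : MvPolynomial (B × Q) Ω :=
    (Matrix.of fun ρ ρ' => MvPolynomial.X (β ρ', κ ρ) * MvPolynomial.C (m ρ ρ')).det
  have hP : ∀ Z : B × Q → Ω, MvPolynomial.eval Z P =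
      (Matrix.of fun ρ ρ' => Z (β ρ', κ ρ) * m ρ ρ').det := by
    intro Z
    show MvPolynomial.eval Z (Matrix.det _) = _
    rw [RingHom.map_det]
    congr 1
    ext ρ ρ'
    simp
  by_contra hcon
  push Not at hcon
  have h0 : P = 0 := by
    refine MvPolynomial.funext_set (fun _ => Set.range (algebraMap k Ω))
      (fun _ => Set.infinite_range_of_injective (algebraMap k Ω).injective) fun Z hZ => ?_
    have h1 : ∀ b, ∃ z, algebraMap k Ω z = Z b := fun b => hZ b (Set.mem_univ _)
    choose z hz using h1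
    rw [hP, map_zero]
    have h2 := hcon fun b q => z (b, q)
    rw [← h2]
    congr 1
    ext ρ ρ'
    rw [Matrix.of_apply, Matrix.of_apply, hz]
  apply h
  have h1 := hP fun b => X b.1 b.2
  rw [h0, map_zero] at h1
  exact h1.symm

section

variable {k : Type} {K : Type} [Field k] [Field K] [Algebra k K] [CharZero k] {n : ℕ}

/-- the copies of the cotangent spaces of the conjugates of the maps -/
abbrev Cps (L : IntermediateField K (AlgebraicClosure K)) {r : ℕ} (c : Fin r → ℕ) (D : ℕ) : Type :=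
  Σ q : Fin r × (L ≃ₐ[K] L), Fin (D * c q.1)

/-- the index set of the rows -/
abbrev Row (L : IntermediateField K (AlgebraicClosure K)) {r : ℕ} (c y : Fin r → ℕ) (D : ℕ) :
    Type :=
  Σ a : Cps L c D, Fin (y a.1.1)

variable {y₀ : Fin n → K}
  (hx : IsTranscendenceBasis k (algebraMap K (AlgebraicClosure K) ∘ y₀))
  {G : Fin n → Derivation k (AlgebraicClosure K) (AlgebraicClosure K)}
  (hG : ∀ i j, G i ((algebraMap K (AlgebraicClosure K) ∘ y₀) j) = if i = j then 1 else 0)
  {L : IntermediateField K (AlgebraicClosure K)} [FiniteDimensional K L] [IsGalois K L]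

include hx hG

/-- the cotangent spaces are spanned by the differentials of coordinates -/
theorem ct_coord {Y : IntermediateField k L} {B : IntermediateField k (AlgebraicClosure K)}
    {y f : ℕ} (h : IsFibres L Y B n y f) {t : Fin y → Y} (ht : IsTranscendenceBasis k t)
    (σ : L ≃ₐ[K] L) : CT G (Vals L Y σ) =
      CT G (Set.range fun i => ((σ (t i : L) : L) : AlgebraicClosure K)) := by
  obtain ⟨τ, hτ⟩ := exists_lift L σ
  have h1 : CT G (Set.range fun i => ((t i : L) : AlgebraicClosure K)) = CT G (Vals L Y 1) := by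
    refine ct_alg G ?_ fun z hz => ?_
    · rintro _ ⟨i, rfl⟩
      exact ⟨_, (t i).2, rfl⟩
    · obtain ⟨z, hz, rfl⟩ := hz
      exact base_alg h ht _ (h.sub z hz)
  have h2 : CT G (Vals L Y σ) = gs τ (CT G (Vals L Y 1)) := by
    rw [gs_vals hx hG, hτ, mul_one]
  rw [h2, ← h1, gs_ct hx hG]
  congr 1
  rw [← Set.range_comp]
  congr 1
  funext i
  have h3 := τ.restrictNormal_commutes L (t i : L)
  rw [hτ] at h3
  exact h3.symm

open scoped Classical in
/-- **The matrices.** -/
theorem exists_mat (hn : Algebra.trdeg k K = n) {r : ℕ} {Y : Fin r → IntermediateField k L}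
    {B : Fin r → IntermediateField k (AlgebraicClosure K)} {y f : Fin r → ℕ}
    (h : ∀ j, IsFibres L (Y j) (B j) n (y j) (f j)) {c : Fin r → ℕ} {d d' : ℕ} (hd' : 1 ≤ d')
    (hdd : d + d' = ∑ j, c j) (hBL : BLDist n B f c d) (hs : ∑ j, c j * f j = d * n) :
    ∃ D : ℕ, 0 < D ∧ ∀ t : ∀ j, Fin (y j) → Y j, (∀ j, IsTranscendenceBasis k (t j)) →
      ∃ (X : Fin (d' * Nat.card (L ≃ₐ[K] L) * D) → Cps L c D → k)
        (e : Row L c y D ≃ Fin n × Fin (d' * Nat.card (L ≃ₐ[K] L) * D)),
        (Matrix.of fun ρ ρ' : Row L c y D => algebraMap k (AlgebraicClosure K) (X (e ρ').2 ρ.1) *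
          G (e ρ').1 ((ρ.1.1.2 (t ρ.1.1.1 ρ.2 : L) : L) : AlgebraicClosure K)).det ≠ 0 := by
  have hk : Infinite k := CharZero.infinite k
  have hΩ0 : CharZero (AlgebraicClosure K) :=
    charZero_of_injective_algebraMap (algebraMap k (AlgebraicClosure K)).injective
  have hinf : Infinite (AlgebraicClosure K) := CharZero.infinite _
  have hg : Nat.card (L ≃ₐ[K] L) = Fintype.card (L ≃ₐ[K] L) := Nat.card_eq_fintype_card
  rw [hg]
  have hg0 : 0 < Fintype.card (L ≃ₐ[K] L) := Fintype.card_pos_iff.2 ⟨1⟩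
  have hd0 : (0 : ℚ) < d' := by exact_mod_cast hd'
  have hgq : (0 : ℚ) < Fintype.card (L ≃ₐ[K] L) := by exact_mod_cast hg0
  obtain ⟨m, D, hD, hm, hcert⟩ := has_of_BL n ⊥ ⊤ bot_le (by
    rw [finrank_top, finrank_bot, zero_add, Module.finrank_fintype_fun_eq_card, Fintype.card_fin])
    _ (fun q : Fin r × (L ≃ₐ[K] L) => div_nonneg (Nat.cast_nonneg (c q.1))
      (mul_nonneg (Nat.cast_nonneg d') (Nat.cast_nonneg (Fintype.card (L ≃ₐ[K] L)))))
    (cot_BL hx hG hn h hd' hdd hBL hs)
  have hle : ∀ q : Fin r × (L ≃ₐ[K] L), (d' * Fintype.card (L ≃ₐ[K] L)) * m q ≤ D * c q.1 := by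
    intro q
    have h1 := mul_le_mul_of_nonneg_left (hm q)
      (by positivity : (0 : ℚ) ≤ d' * Fintype.card (L ≃ₐ[K] L))
    have h2 : ((d' : ℚ) * Fintype.card (L ≃ₐ[K] L)) *
        (D * ((c q.1 : ℚ) / (d' * Fintype.card (L ≃ₐ[K] L)))) = D * c q.1 := by
      field_simp
    rw [h2] at h1
    exact_mod_cast h1
  obtain ⟨X, hX⟩ := cert_mono hle (cert_smul hcert (d' * Fintype.card (L ≃ₐ[K] L)))
  refine ⟨D, hD, fun t ht => ?_⟩
  -- the numbers of rows and columns
  have hcy : ∑ j, c j * y j = n * d' := by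
    have h1 : ∑ j, c j * y j + ∑ j, c j * f j = n * (d + d') := by
      rw [← Finset.sum_add_distrib, hdd, Finset.mul_sum]
      refine Finset.sum_congr rfl fun j _ => ?_
      rw [← (h j).add]
      ring
    rw [hs] at h1
    have h2 : n * (d + d') = d * n + n * d' := by ring
    omega
  have hcard : Fintype.card (Row L c y D) =
      Fintype.card (Fin n × Fin (d' * Fintype.card (L ≃ₐ[K] L) * D)) := by
    rw [Fintype.card_sigma]
    simp only [Fintype.card_fin, Fintype.card_prod]
    rw [Fintype.sum_sigma]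
    simp only [Finset.sum_const, Finset.card_univ, Fintype.card_fin, smul_eq_mul]
    rw [Fintype.sum_prod_type]
    simp only [Finset.sum_const, Finset.card_univ, smul_eq_mul]
    have h1 : ∑ j, Fintype.card (L ≃ₐ[K] L) * (D * c j * y j) =
        Fintype.card (L ≃ₐ[K] L) * D * ∑ j, c j * y j := by
      rw [Finset.mul_sum]
      exact Finset.sum_congr rfl fun j _ => by ring
    rw [h1, hcy]
    ring
  let e : Row L c y D ≃ Fin n × Fin (d' * Fintype.card (L ≃ₐ[K] L) * D) :=
    Fintype.equivOfCardEq hcard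
  obtain ⟨X', hX'⟩ := choose_det (k := k) (fun ρ' : Row L c y D => (e ρ').2)
    (fun ρ : Row L c y D => ρ.1) (fun ρ ρ' =>
      G (e ρ').1 ((ρ.1.1.2 (t ρ.1.1.1 ρ.2 : L) : L) : AlgebraicClosure K)) X (by
    have h1 : Function.Surjective fun v => v ᵥ* (Matrix.of fun ρ ρ' : Row L c y D =>
        X (e ρ').2 ρ.1 *
          G (e ρ').1 ((ρ.1.1.2 (t ρ.1.1.1 ρ.2 : L) : L) : AlgebraicClosure K)) := by
      intro z
      obtain ⟨s, hs, hsz⟩ := hX (fun b => fun i => z (e.symm (i, b))) fun _ => Submodule.mem_top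
      have h2 : ∀ a : Cps L c D, ∃ α : Fin (y a.1.1) → AlgebraicClosure K,
          ∑ l, α l • (fun i => G i ((a.1.2 (t a.1.1 l : L) : L) : AlgebraicClosure K)) = s a := by
        intro a
        have h3 := (hs a).1
        change s a ∈ CT G (Vals L (Y a.1.1) a.1.2) at h3
        rw [ct_coord hx hG (h a.1.1) (ht a.1.1)] at h3
        unfold CT at h3
        rw [← Set.range_comp] at h3
        exact (Submodule.mem_span_range_iff_exists_fun _).1 h3
      choose α hα using h2
      refine ⟨fun ρ => α ρ.1 ρ.2, funext fun ρ' => ?_⟩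
      have h3 := hsz (e ρ').2
      rw [Submodule.mem_bot, sub_eq_zero] at h3
      have h4 := congrFun h3 (e ρ').1
      have h5 : z (e.symm ((e ρ').1, (e ρ').2)) = z ρ' := by
        rw [Prod.mk.eta, e.symm_apply_apply]
      rw [h5] at h4
      rw [h4, Finset.sum_apply]
      show ∑ ρ : Row L c y D, α ρ.1 ρ.2 * (X (e ρ').2 ρ.1 *
        G (e ρ').1 ((ρ.1.1.2 (t ρ.1.1.1 ρ.2 : L) : L) : AlgebraicClosure K)) = _
      rw [Fintype.sum_sigma]
      refine Finset.sum_congr rfl fun a _ => ?_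
      rw [← hα a, Pi.smul_apply, Finset.sum_apply, Finset.smul_sum]
      refine Finset.sum_congr rfl fun l _ => ?_
      rw [Pi.smul_apply, smul_eq_mul, smul_eq_mul]
      ring
    have h2 := (Matrix.isUnit_iff_isUnit_det _).1 (Matrix.vecMul_surjective_iff_isUnit.1 h1)
    exact h2.ne_zero)
  exact ⟨X', e, hX'⟩

end

end Pool.Agent.H891.RH
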