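import Pool.Agent.H891.BL.Full

/-! Orthogonal complements for the standard pairing. -/

set_option autoImplicit false
set_option linter.unusedSectionVars false

open Pool.Agent.H891.BL

namespace Pool.Agent.H891.RH

section

variable {Ω : Type*} [Field Ω] {n : ℕ}

/-- the orthogonal complement -/
def orth (S : Submodule Ω (Fin n → Ω)) : Submodule Ω (Fin n → Ω) where
  carrier := {a | ∀ w ∈ S, ∑ l, a l * w l = 0}
  add_mem' := fun {a b} ha hb w hw => by
    have h1 : ∑ l, (a + b) l * w l = ∑ l, a l * w l + ∑ l, b l * w l := by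
      rw [← Finset.sum_add_distrib]
      exact Finset.sum_congr rfl fun l _ => add_mul _ _ _
    rw [h1, ha w hw, hb w hw, add_zero]
  zero_mem' := fun w _ => Finset.sum_eq_zero fun l _ => zero_mul _
  smul_mem' := fun c a ha w hw => by
    have h1 : ∑ l, (c • a) l * w l = c * ∑ l, a l * w l := by
      rw [Finset.mul_sum]
      exact Finset.sum_congr rfl fun l _ => mul_assoc _ _ _
    rw [h1, ha w hw, mul_zero]

theorem mem_orth {S : Submodule Ω (Fin n → Ω)} {a : Fin n → Ω} :
    a ∈ orth S ↔ ∀ w ∈ S, ∑ l, a l * w l = 0 := Iff.rfl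

theorem orth_anti {S S' : Submodule Ω (Fin n → Ω)} (h : S ≤ S') : orth S' ≤ orth S :=
  fun _ ha w hw => ha w (h hw)

theorem orth_sup (S S' : Submodule Ω (Fin n → Ω)) : orth (S ⊔ S') = orth S ⊓ orth S' := by
  apply le_antisymm
  · exact le_inf (orth_anti le_sup_left) (orth_anti le_sup_right)
  · rintro a ⟨h1, h2⟩ w hw
    obtain ⟨u, hu, v, hv, rfl⟩ := Submodule.mem_sup.1 hw
    have h3 : ∑ l, a l * (u + v) l = ∑ l, a l * u l + ∑ l, a l * v l := by
      rw [← Finset.sum_add_distrib]
      exact Finset.sum_congr rfl fun l _ => mul_add _ _ _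
    rw [h3, h1 u hu, h2 v hv, add_zero]

theorem mem_orth_span {S : Set (Fin n → Ω)} {a : Fin n → Ω} :
    a ∈ orth (Submodule.span Ω S) ↔ ∀ w ∈ S, ∑ l, a l * w l = 0 := by
  constructor
  · exact fun h w hw => h w (Submodule.subset_span hw)
  · intro h w hw
    induction hw using Submodule.span_induction with
    | mem w hw => exact h w hw
    | zero => exact Finset.sum_eq_zero fun l _ => mul_zero _
    | add u v _ _ hu hv =>
      have h3 : ∑ l, a l * (u + v) l = ∑ l, a l * u l + ∑ l, a l * v l := by
        rw [← Finset.sum_add_distrib]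
        exact Finset.sum_congr rfl fun l _ => mul_add _ _ _
      rw [h3, hu, hv, add_zero]
    | smul c u _ hu =>
      have h3 : ∑ l, a l * (c • u) l = c * ∑ l, a l * u l := by
        rw [Finset.mul_sum]
        exact Finset.sum_congr rfl fun l _ => mul_left_comm _ _ _
      rw [h3, hu, mul_zero]

theorem orth_rank (S : Submodule Ω (Fin n → Ω)) :
    Module.finrank Ω S + Module.finrank Ω (orth S) = n := by
  classical
  have h1 := Subspace.finrank_add_finrank_dualAnnihilator_eq S
  rw [Module.finrank_fintype_fun_eq_card, Fintype.card_fin] at h1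
  let e : (Fin n → Ω) ≃ₗ[Ω] Module.Dual Ω (Fin n → Ω) := (Pi.basisFun Ω (Fin n)).toDualEquiv
  have he : ∀ a w, e a w = ∑ l, a l * w l := by
    intro a w
    have h3 : w = ∑ l, w l • Pi.basisFun Ω (Fin n) l := by
      funext i
      rw [Finset.sum_apply, Finset.sum_eq_single i]
      · simp
      · intro b _ hb
        simp [Ne.symm hb]
      · intro h
        exact (h (Finset.mem_univ _)).elim
    have h4 : e a w = ∑ l, w l • e a (Pi.basisFun Ω (Fin n) l) := by
      conv_lhs => rw [h3]
      rw [map_sum]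
      exact Finset.sum_congr rfl fun l _ => map_smul _ _ _
    rw [h4]
    refine Finset.sum_congr rfl fun l _ => ?_
    have h5 : e a (Pi.basisFun Ω (Fin n) l) = a l := by
      show (Pi.basisFun Ω (Fin n)).toDual a (Pi.basisFun Ω (Fin n) l) = a l
      rw [Module.Basis.toDual_apply_left]
      rfl
    rw [h5, smul_eq_mul, mul_comm]
  have h2 : orth S = S.dualAnnihilator.comap e.toLinearMap := by
    ext a
    rw [Submodule.mem_comap, Submodule.mem_dualAnnihilator]
    constructor
    · intro h w hw
      show e a w = 0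
      rw [he]
      exact h w hw
    · intro h w hw
      rw [← he]
      exact h w hw
  have h3 : ∀ A : Submodule Ω (Module.Dual Ω (Fin n → Ω)),
      Module.finrank Ω (A.comap e.toLinearMap) = Module.finrank Ω A := fun A =>
    LinearEquiv.finrank_eq ((LinearEquiv.submoduleMap e.symm A).trans
      (LinearEquiv.ofEq _ _ (Submodule.map_equiv_eq_comap_symm e.symm A))).symm
  rw [h2, h3]
  exact h1

theorem gs_orth {K : Type*} [Field K] [Algebra K Ω] (σ : Ω ≃ₐ[K] Ω)
    (S : Submodule Ω (Fin n → Ω)) : gs σ (orth S) = orth (gs σ S) := by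
  have key : ∀ a w : Fin n → Ω, σ (∑ l, gv σ.symm a l * gv σ.symm w l) = ∑ l, a l * w l := by
    intro a w
    rw [map_sum]
    refine Finset.sum_congr rfl fun l _ => ?_
    rw [map_mul]
    congr 1 <;> exact σ.apply_symm_apply _
  ext a
  rw [mem_gs]
  constructor
  · intro h w hw
    rw [← key, h _ hw, map_zero]
  · intro h w hw
    apply σ.injective
    have h1 := key a (gv σ w)
    rw [gv_symm'] at h1
    rw [h1, map_zero]
    refine h _ ?_
    rw [mem_gs, gv_symm']
    exact hw

theorem gs_sup {K : Type*} [Field K] [Algebra K Ω] (σ : Ω ≃ₐ[K] Ω)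
    (U U' : Submodule Ω (Fin n → Ω)) (h : U ≤ U') : gs σ U ≤ gs σ U' := fun _ ha => h ha

end

end Pool.Agent.H891.RH
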